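import Pool.Agent.Helper72.EN.Inv

/-!
# A weak form of Koebe's theorem, by Bloch's theorem and the logarithm
-/

set_option autoImplicit false

open Set Metric Topology Filter Real

namespace Pool.Agent.Helper72.EN

/-- Bloch's theorem (Landau's proof). -/
lemma bloch {F : ℂ → ℂ} {w : ℂ} {R r : ℝ} (hF : DifferentiableOn ℂ F (ball w R)) (hr : 0 < r)
    (hrR : r < R) (h0 : deriv F w ≠ 0) :
    ∃ a, ball (F a) (r * ‖deriv F w‖ / 48) ⊆ F '' ball w R := by
  have hsub : closedBall w r ⊆ ball w R := closedBall_subset_ball hrR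
  have hdF : DifferentiableOn ℂ (deriv F) (ball w R) := hF.deriv isOpen_ball
  have hat : ∀ z ∈ ball w R, DifferentiableAt ℂ F z := fun z hz =>
    (hF z hz).differentiableAt (isOpen_ball.mem_nhds hz)
  obtain ⟨a, ha, hmax⟩ := (isCompact_closedBall w r).exists_isMaxOn
    (f := fun z => (r - ‖z - w‖) * ‖deriv F z‖) ⟨w, mem_closedBall_self hr.le⟩
    ((continuous_const.sub (continuous_id.sub continuous_const).norm).continuousOn.mul
      (hdF.continuousOn.mono hsub).norm)
  have haw : ‖a - w‖ ≤ r := by rwa [mem_closedBall, dist_eq_norm] at ha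
  have hM : r * ‖deriv F w‖ ≤ (r - ‖a - w‖) * ‖deriv F a‖ := by
    have := hmax (mem_closedBall_self hr.le)
    simpa using this
  have hpos : 0 < r * ‖deriv F w‖ := mul_pos hr (norm_pos_iff.2 h0)
  set A := ‖deriv F a‖ with hA
  have hA0 : 0 < A := by
    rcases (norm_nonneg (deriv F a)).lt_or_eq with h | h
    · exact h
    · rw [← hA] at h; rw [← h, mul_zero] at hM; linarith
  have hτ' : 0 < r - ‖a - w‖ := by
    by_contra hcon
    push Not at hcon
    nlinarith
  set τ := (r - ‖a - w‖) / 2 with hτ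
  have hτ0 : 0 < τ := by positivity
  have hbd : ∀ z ∈ ball a τ, z ∈ ball w R ∧ ‖deriv F z‖ ≤ 2 * A := by
    intro z hz
    rw [mem_ball, dist_eq_norm] at hz
    have h1 : ‖z - w‖ ≤ ‖z - a‖ + ‖a - w‖ := norm_sub_le_norm_sub_add_norm_sub z a w
    have h2 : z ∈ closedBall w r := by rw [mem_closedBall, dist_eq_norm]; linarith
    refine ⟨hsub h2, ?_⟩
    have h3 : (r - ‖z - w‖) * ‖deriv F z‖ ≤ (r - ‖a - w‖) * A := hmax h2
    have h4 : τ ≤ r - ‖z - w‖ := by linarith
    have h5 : τ * ‖deriv F z‖ ≤ τ * (2 * A) := by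
      calc τ * ‖deriv F z‖ ≤ (r - ‖z - w‖) * ‖deriv F z‖ :=
            mul_le_mul_of_nonneg_right h4 (norm_nonneg _)
        _ ≤ (r - ‖a - w‖) * A := h3
        _ = τ * (2 * A) := by rw [hτ]; ring
    exact le_of_mul_le_mul_left h5 hτ0
  have hsch : ∀ z ∈ ball a τ, ‖deriv F z - deriv F a‖ ≤ 3 * A / τ * ‖z - a‖ := by
    intro z hz
    have := Complex.dist_le_div_mul_dist_of_mapsTo_ball (f := deriv F) (c := a) (R₁ := τ)
      (R₂ := 3 * A) (z := z) (hdF.mono fun y hy => (hbd y hy).1) (fun y hy => by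
        rw [mem_closedBall, dist_eq_norm]
        have h1 := norm_sub_le (deriv F y) (deriv F a)
        have h2 := (hbd y hy).2
        linarith) hz
    rwa [dist_eq_norm, dist_eq_norm] at this
  have hcl : closedBall a (τ / 6) ⊆ ball a τ := closedBall_subset_ball (by linarith)
  have hclR : closedBall a (τ / 6) ⊆ ball w R := fun z hz => (hbd z (hcl hz)).1
  have hK : ∀ z ∈ closedBall a (τ / 6), ‖(F z - deriv F a * z) - (F a - deriv F a * a)‖
      ≤ A / 2 * ‖z - a‖ := by
    intro z hz
    refine Convex.norm_image_sub_le_of_norm_deriv_le (𝕜 := ℂ)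
      (f := fun z => F z - deriv F a * z) (C := A / 2) (s := closedBall a (τ / 6)) ?_ ?_
      (convex_closedBall _ _) (mem_closedBall_self (by positivity)) hz
    · intro y hy
      exact (hat y (hclR hy)).sub ((differentiableAt_id).const_mul _)
    · intro y hy
      have h1 : deriv (fun z => F z - deriv F a * z) y = deriv F y - deriv F a := by
        rw [deriv_fun_sub (hat y (hclR hy)) ((differentiableAt_fun_id).const_mul _),
          deriv_const_mul _ differentiableAt_fun_id, deriv_id'', mul_one]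
      rw [h1]
      refine (hsch y (hcl hy)).trans ?_
      rw [mem_closedBall, dist_eq_norm] at hy
      calc 3 * A / τ * ‖y - a‖ ≤ 3 * A / τ * (τ / 6) :=
            mul_le_mul_of_nonneg_left hy (by positivity)
        _ = A / 2 := by field_simp; norm_num
  have hlow : ∀ z ∈ sphere a (τ / 6), A * τ / 12 ≤ ‖F z - F a‖ := by
    intro z hz
    have h1 := hK z (sphere_subset_closedBall hz)
    rw [mem_sphere, dist_eq_norm] at hz
    have e : deriv F a * (z - a) = (F z - F a)
        - ((F z - deriv F a * z) - (F a - deriv F a * a)) := by ring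
    have h2 : ‖deriv F a * (z - a)‖ = A * (τ / 6) := by rw [norm_mul, hz]
    have h3 := norm_sub_le (F z - F a) ((F z - deriv F a * z) - (F a - deriv F a * a))
    rw [← e, h2] at h3
    rw [hz] at h1
    linarith
  have hdc : DiffContOnCl ℂ F (ball a (τ / 6)) := by
    refine DifferentiableOn.diffContOnCl ?_
    rw [closure_ball _ (by positivity)]
    exact hF.mono hclR
  have hfr : ∃ᶠ z in 𝓝 a, F z ≠ F a := by
    have h1 : ∀ᶠ z in 𝓝[≠] a, F z ≠ F a :=
      (hat a (hbd a (mem_ball_self hτ0)).1).hasDerivAt.eventually_ne (norm_pos_iff.1 hA0)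
    exact h1.frequently.filter_mono nhdsWithin_le_nhds
  have him := hdc.ball_subset_image_closedBall (by positivity) hlow hfr
  refine ⟨a, ?_⟩
  refine (ball_subset_ball ?_).trans (him.trans (image_mono hclR))
  have : (r - ‖a - w‖) * A = 2 * τ * A := by rw [hτ]; ring
  rw [this] at hM
  linarith

/-- A holomorphic function without zeros on a disc has a logarithm. -/
lemma exists_log {g : ℂ → ℂ} {w : ℂ} {R : ℝ} (hg : DifferentiableOn ℂ g (ball w R))
    (h0 : ∀ z ∈ ball w R, g z ≠ 0) :
    ∃ F : ℂ → ℂ, (∀ z ∈ ball w R, HasDerivAt F (deriv g z / g z) z) ∧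
      ∀ z ∈ ball w R, Complex.exp (F z) = g z := by
  rcases le_or_gt R 0 with hR | hR
  · refine ⟨0, fun z hz => ?_, fun z hz => ?_⟩ <;>
      · rw [ball_eq_empty.2 hR] at hz; exact absurd hz (notMem_empty z)
  have hat : ∀ z ∈ ball w R, DifferentiableAt ℂ g z := fun z hz =>
    (hg z hz).differentiableAt (isOpen_ball.mem_nhds hz)
  have hq : DifferentiableOn ℂ (fun z => deriv g z / g z) (ball w R) :=
    (hg.deriv isOpen_ball).div hg h0
  obtain ⟨P, hP⟩ := hq.isExactOn_ball
  have hw : w ∈ ball w R := mem_ball_self hR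
  have hd : ∀ z ∈ ball w R, HasDerivAt (fun z => g z * Complex.exp (-P z)) 0 z := by
    intro z hz
    have hPz : HasDerivAt P (deriv g z / g z) z := hP z hz
    have h1 : HasDerivAt (fun z => g z * Complex.exp (-P z))
        (deriv g z * Complex.exp (-P z) + g z * (Complex.exp (-P z) * -(deriv g z / g z))) z :=
      (hat z hz).hasDerivAt.mul hPz.neg.cexp
    have e : deriv g z * Complex.exp (-P z) + g z * (Complex.exp (-P z) * -(deriv g z / g z)) = 0 := by
      have := h0 z hz
      field_simp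
      ring
    rw [e] at h1
    exact h1
  have hconst : ∀ z ∈ ball w R, g z * Complex.exp (-P z) = g w * Complex.exp (-P w) := by
    intro z hz
    have := Convex.norm_image_sub_le_of_norm_deriv_le (𝕜 := ℂ)
      (f := fun z => g z * Complex.exp (-P z)) (C := 0) (s := ball w R)
      (fun y hy => (hd y hy).differentiableAt) (fun y hy => by rw [(hd y hy).deriv]; simp)
      (convex_ball _ _) hw hz
    rw [zero_mul] at this
    exact sub_eq_zero.1 (norm_le_zero_iff.1 this)
  have hc : g w * Complex.exp (-P w) ≠ 0 := mul_ne_zero (h0 w hw) (Complex.exp_ne_zero _)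
  refine ⟨fun z => P z + Complex.log (g w * Complex.exp (-P w)),
    fun z hz => (hP z hz).add_const _, fun z hz => ?_⟩
  rw [Complex.exp_add, Complex.exp_log hc, ← hconst z hz]
  rw [mul_comm, mul_assoc, ← Complex.exp_add]
  simp

/-- **Weak Koebe theorem.** -/
theorem koebe {g : ℂ → ℂ} {w ζ : ℂ} {R : ℝ} (hR : 0 < R) (hg : DifferentiableOn ℂ g (ball w R))
    (hinj : InjOn g (ball w R)) (hζ : ζ ∉ g '' ball w R) :
    R * ‖deriv g w‖ ≤ 151 * ‖g w - ζ‖ := by
  have hne : ∀ z ∈ ball w R, g z - ζ ≠ 0 := fun z hz h => hζ ⟨z, hz, sub_eq_zero.1 h⟩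
  have hw : w ∈ ball w R := mem_ball_self hR
  obtain ⟨F, hF, hexp⟩ := exists_log (g := fun z => g z - ζ) (hg.sub_const ζ) hne
  have hgw : 0 < ‖g w - ζ‖ := norm_pos_iff.2 (hne w hw)
  by_contra hcon
  push Not at hcon
  have hdw : deriv (fun z => g z - ζ) w = deriv g w := deriv_sub_const ..
  have hFw : deriv F w = deriv g w / (g w - ζ) := by rw [(hF w hw).deriv, hdw]
  have hFn : 151 < R * ‖deriv F w‖ := by
    rw [hFw, norm_div, mul_div_assoc', lt_div_iff₀ hgw]; exact hcon
  have hF0 : deriv F w ≠ 0 := by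
    intro h; rw [h, norm_zero, mul_zero] at hFn; linarith
  have hFpos : 0 < ‖deriv F w‖ := norm_pos_iff.2 hF0
  set r := 151 / ‖deriv F w‖ with hr
  have hr0 : 0 < r := by positivity
  have hrR : r < R := by rw [hr, div_lt_iff₀ hFpos]; exact hFn
  obtain ⟨a, ha⟩ := bloch (fun z hz => (hF z hz).differentiableAt.differentiableWithinAt) hr0 hrR
    hF0
  have hρ : π < r * ‖deriv F w‖ / 48 := by
    rw [hr, div_mul_cancel₀ _ hFpos.ne']
    have := pi_lt_d4
    linarith
  have hn : ‖(π : ℂ) * Complex.I‖ = π := by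
    rw [norm_mul, Complex.norm_I, mul_one, Complex.norm_real, Real.norm_of_nonneg pi_pos.le]
  obtain ⟨z1, hz1, h1⟩ := ha (show F a + π * Complex.I ∈ _ by
    rw [mem_ball, dist_eq_norm, add_sub_cancel_left, hn]; exact hρ)
  obtain ⟨z2, hz2, h2⟩ := ha (show F a - π * Complex.I ∈ _ by
    rw [mem_ball, dist_eq_norm, sub_sub_cancel_left, norm_neg, hn]; exact hρ)
  have e1 : g z1 - ζ = g z2 - ζ := by
    have h5 : F z1 = F z2 + 2 * (π : ℂ) * Complex.I := by
      rw [h1, h2]; ring
    have h6 : Complex.exp (F z1) = Complex.exp (F z2) := by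
      rw [h5]; exact Complex.exp_periodic _
    have h7 : Complex.exp (F z1) = g z1 - ζ := hexp z1 hz1
    have h8 : Complex.exp (F z2) = g z2 - ζ := hexp z2 hz2
    rw [← h7, ← h8, h6]
  have e2 : z1 = z2 := hinj hz1 hz2 (sub_left_inj.1 e1)
  rw [e2] at h1
  have h3 : (2 : ℂ) * (π * Complex.I) = 0 := by linear_combination h2 - h1
  have h4 : (π : ℂ) * Complex.I = 0 := (mul_eq_zero.1 h3).resolve_left two_ne_zero
  rw [h4, norm_zero] at hn
  exact pi_pos.ne hn

end Pool.Agent.Helper72.EN
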