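import Pool.Agent.Helper72.EN.Nest
import Pool.Agent.Helper72.EN.Koebe
import Pool.Agent.Helper18.UY.Vel

/-!
# Long times from components without critical points
-/

set_option autoImplicit false

open Set Metric Topology Filter Real

namespace Pool.Agent.Helper72.EN

open Pool.Agent.Helper18.UC Pool.Agent.Helper18.UY

lemma orb_xc {a b t : ℝ} (hb : 0 ≤ b) (hb1 : b ≤ 1) : Orb a (xc a b t) where
  zero := ⟨b, t, hb, hb1, fun z => by rw [xc]⟩
  one := fun z => by rw [xc]
  succ := fun k z => by rw [xc]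

/-- Cauchy's estimate for the derivative at the points of the half disc. -/
lemma cauchy_half {f : ℂ → ℂ} (hf : Differentiable ℂ f) {s : ℂ} {r C : ℝ} (hr : 0 < r)
    (h : ∀ z ∈ ball s r, ‖f z - f s‖ ≤ C) {z : ℂ} (hz : z ∈ ball s (r / 2)) :
    ‖deriv f z‖ ≤ C / (r / 2) := by
  have h1 : deriv (fun z => f z - f s) z = deriv f z := deriv_sub_const ..
  rw [← h1]
  rw [mem_ball, dist_eq_norm] at hz
  have hC : 0 ≤ C := (norm_nonneg _).trans (h s (mem_ball_self hr))
  have key : ∀ ρ : ℝ, 0 < ρ → ρ < r / 2 → ‖deriv (fun z => f z - f s) z‖ ≤ C / ρ := by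
    intro ρ hρ hρr
    refine Complex.norm_deriv_le_of_forall_mem_sphere_norm_le hρ ?_ ?_
    · exact (hf.sub_const _).diffContOnCl
    · intro y hy
      rw [mem_sphere, dist_eq_norm] at hy
      refine h y ?_
      rw [mem_ball, dist_eq_norm]
      have := norm_sub_le_norm_sub_add_norm_sub y z s
      linarith
  have hr2 : 0 < r / 2 := by positivity
  have hlim : Tendsto (fun ρ : ℝ => C / ρ) (𝓝[<] (r / 2)) (𝓝 (C / (r / 2))) := by
    refine Tendsto.mono_left ?_ nhdsWithin_le_nhds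
    exact (continuousAt_const.div continuousAt_id hr2.ne')
  refine ge_of_tendsto hlim ?_
  filter_upwards [Ioo_mem_nhdsLT hr2] with ρ hρ
  exact key ρ hρ.1 hρ.2

/-- **Long times.** -/
theorem long_of_noncrit {a b B R t s : ℝ} {l : ℕ} (hb : 0 ≤ b) (hb1 : b ≤ 1) (hB : 1 ≤ B)
    (hR : 200000 * B ^ 2 ≤ R) (ha : 10000 * R ≤ |a|) (hl : 1 ≤ l)
    (hd : ∀ z ∈ connectedComponentIn {u | ‖xc a b t (l + 1) u - xc a b t (l + 1) s‖ < R} (s : ℂ),
      deriv (xc a b t (l + 1)) z ≠ 0) : Long a b B l t s := by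
  obtain ⟨k, rfl⟩ : ∃ k, l = k + 1 := ⟨l - 1, by omega⟩
  set X := xc a b t with hX
  have hO : Orb a X := orb_xc hb hb1
  have hB2 : 1 ≤ B ^ 2 := one_le_pow₀ hB
  have hR1 : 1 ≤ R := by nlinarith
  have hR0 : 0 < R := by linarith
  have hd' : ∀ z ∈ cp X R (k + 1 + 1) s, deriv (X (k + 1 + 1)) z ≠ 0 := hd
  obtain ⟨g, hg, hg1, hg2⟩ := cp_inv hO hR1 ha s (k + 1) hd'
  set f := X (k + 1 + 1) with hf
  have hfd : Differentiable ℂ f := hO.diff _
  have hsU : (s : ℂ) ∈ cp X R (k + 1 + 1) s := mem_comp (by simpa using hR0)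
  have hw : f s ∈ ball (f s) R := mem_ball_self hR0
  have hgs : g (f s) = s := hg2 _ hsU
  have hinj : InjOn g (ball (f s) R) := fun u hu v hv huv => by
    rw [← (hg1 u hu).2, huv, (hg1 v hv).2]
  have hfs0 : deriv f s ≠ 0 := hd' _ hsU
  have hgd : deriv g (f s) = (deriv f s)⁻¹ := by
    have h1 : DifferentiableAt ℂ g (f s) :=
      (hg _ hw).differentiableAt (isOpen_ball.mem_nhds hw)
    have h2 : HasDerivAt (g ∘ f) (deriv g (f s) * deriv f s) (s : ℂ) :=
      h1.hasDerivAt.comp _ (hfd s).hasDerivAt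
    have h3 : HasDerivAt (g ∘ f) 1 (s : ℂ) := by
      refine (hasDerivAt_id (s : ℂ)).congr_of_eventuallyEq ?_
      filter_upwards [(comp_isOpen hfd.continuous _ _ _).mem_nhds hsU] with z hz
      exact hg2 z hz
    have h4 := h2.unique h3
    exact eq_inv_of_mul_eq_one_left h4
  set V0 := ‖deriv f s‖ with hV0
  have hV0p : 0 < V0 := norm_pos_iff.2 hfs0
  set r := R / (151 * V0) with hr
  have hr0 : 0 < r := by positivity
  have hball : ball (s : ℂ) r ⊆ cp X R (k + 1 + 1) s := by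
    intro ζ hζ
    by_contra hcon
    have h1 : ζ ∉ g '' ball (f s) R := by
      rintro ⟨v, hv, rfl⟩
      exact hcon (hg1 v hv).1
    have h2 := koebe hR0 hg hinj h1
    rw [hgd, hgs, norm_inv, ← hV0] at h2
    rw [mem_ball, dist_comm, dist_eq_norm, hr, lt_div_iff₀ (by positivity)] at hζ
    rw [← div_eq_mul_inv, div_le_iff₀ hV0p] at h2
    linarith
  have hr2 : 0 < r / 2 := by positivity
  -- the three functions on the disc
  have hfb : ∀ z ∈ ball (s : ℂ) r, ‖f z - f s‖ ≤ R := fun z hz => (comp_sub _ _ _ (hball hz)).le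
  have hε := sqrt_small hR1 ha
  have h1b : ∀ z ∈ ball (s : ℂ) r, ‖X (k + 1) z - X (k + 1) s‖ ≤ 1 / 100 := fun z hz =>
    ((small hO hR1 ha s k (hball hz)).trans_le hε).le
  have h0b : ∀ z ∈ ball (s : ℂ) r, ‖X k z - X k s‖ ≤ 1 / 100 := by
    intro z hz
    rcases k with _ | k
    · obtain ⟨b', c, hb0', hb1', h0⟩ := hO.zero
      have h1 := h1b z hz
      rw [zero_add, hO.one, hO.one] at h1
      rw [h0, h0]
      have : (c : ℂ) + b' * z - (c + b' * s) = b' * (z - s) := by ring
      rw [this, norm_mul, Complex.norm_real, Real.norm_of_nonneg hb0']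
      have h2 := mul_le_mul hb1' h1 (norm_nonneg _) zero_le_one
      linarith
    · exact ((small hO hR1 ha s k (cp_anti hO hR1 ha s (k + 1) (hball hz))).trans_le hε).le
  have hr2e : r / 2 = R / (302 * V0) := by rw [hr]; field_simp; norm_num
  have hf' : ∀ z ∈ ball (s : ℂ) (r / 2), ‖deriv f z‖ ≤ 302 * V0 := by
    intro z hz
    refine (cauchy_half hfd hr0 hfb hz).trans (le_of_eq ?_)
    rw [hr2e]; field_simp
  have hc' : ∀ j, (∀ z ∈ ball (s : ℂ) r, ‖X j z - X j s‖ ≤ 1 / 100) →
      ∀ z ∈ ball (s : ℂ) (r / 2), ‖deriv (X j) z‖ ≤ 302 / 100 * V0 / R := by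
    intro j hj z hz
    refine (cauchy_half (hO.diff j) hr0 hj hz).trans (le_of_eq ?_)
    rw [hr2e]; field_simp
  have h1' := hc' _ h1b
  have h0' := hc' _ h0b
  have hsch : ∀ z ∈ ball (s : ℂ) (r / 2),
      ‖deriv f z - deriv f s‖ ≤ 91506 * V0 ^ 2 / R * ‖z - s‖ := by
    intro z hz
    have hdd : Differentiable ℂ (deriv f) := fun y => (hfd.analyticAt y).deriv.differentiableAt
    have := Complex.dist_le_div_mul_dist_of_mapsTo_ball (f := deriv f) (c := (s : ℂ))
      (R₁ := r / 2) (R₂ := 303 * V0) (z := z) hdd.differentiableOn (fun y hy => by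
        rw [mem_closedBall, dist_eq_norm]
        have h1 := norm_sub_le (deriv f y) (deriv f s)
        have h2 := hf' y hy
        linarith) hz
    rw [dist_eq_norm, dist_eq_norm] at this
    refine this.trans (le_of_eq ?_)
    congr 1
    rw [hr2e]; field_simp; norm_num
  have hss : (s : ℂ) ∈ ball (s : ℂ) (r / 2) := mem_ball_self hr2
  -- real velocities
  have e1 := (deriv_xc_real a b t (k + 1) s).1
  have e2 := (deriv_xc_real a b t (k + 1) s).2
  have e3 := (deriv_xc_real a b t k s).1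
  have e4 := (deriv_xc_real a b t k s).2
  have hnorm : ∀ x : ℝ, ‖(x : ℂ)‖ = |x| := fun x => by rw [Complex.norm_real, Real.norm_eq_abs]
  have hwx : |wx a b (k + 1) (ln b t s)| = V0 := by
    rw [hV0, hf, hX, e1, hnorm]
  have hwy : |wy a b (k + 1) (ln b t s)| ≤ 302 / 100 * V0 / R := by
    rw [← hnorm, ← e2]; exact h1' _ hss
  have hwx0 : |wx a b k (ln b t s)| ≤ 302 / 100 * V0 / R := by
    rw [← hnorm, ← e3]; exact h1' _ hss
  have hwy0 : |wy a b k (ln b t s)| ≤ 302 / 100 * V0 / R := by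
    rw [← hnorm, ← e4]; exact h0' _ hss
  have hRB : 200000 * B ≤ R := by nlinarith
  have hle : 302 / 100 * V0 / R ≤ V0 / (2 * B) := by
    rw [div_le_div_iff₀ hR0 (by positivity)]
    nlinarith
  have hle2 : V0 / (2 * B) ≤ V0 := by
    rw [div_le_iff₀ (by positivity)]; nlinarith
  have hV : V a b (k + 1) (ln b t s) = V0 := by
    rw [V, hwx, max_eq_left (hwy.trans (hle.trans hle2))]
  refine ⟨?_, ?_⟩
  · rw [hV, Nat.add_sub_cancel, V]
    have h1 : max |wx a b k (ln b t s)| |wy a b k (ln b t s)| ≤ V0 / (2 * B) :=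
      max_le (hwx0.trans hle) (hwy0.trans hle)
    calc B * max |wx a b k (ln b t s)| |wy a b k (ln b t s)| ≤ B * (V0 / (2 * B)) :=
          mul_le_mul_of_nonneg_left h1 (by linarith)
      _ = V0 / 2 := by field_simp
      _ ≤ V0 := by linarith
  · intro s' hs'
    rw [hV] at hs' ⊢
    have hd1 : ‖(s' : ℂ) - s‖ ≤ B / V0 := by
      rw [← Complex.ofReal_sub, hnorm]; exact hs'
    have hmem : (s' : ℂ) ∈ ball (s : ℂ) (r / 2) := by
      rw [mem_ball, dist_eq_norm, hr2e]
      refine hd1.trans_lt ?_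
      rw [div_lt_div_iff₀ hV0p (by positivity)]
      nlinarith
    constructor
    · have h1 := (hsch _ hmem).trans (mul_le_mul_of_nonneg_left hd1 (by positivity))
      have e5 : deriv f s' - deriv f s
          = ((wx a b (k + 1) (ln b t s') - wx a b (k + 1) (ln b t s) : ℝ) : ℂ) := by
        rw [hf, hX, e1, (deriv_xc_real a b t (k + 1) s').1]; push_cast; ring
      rw [e5, hnorm] at h1
      refine h1.trans ?_
      have : 91506 * V0 ^ 2 / R * (B / V0) = 91506 * V0 * B / R := by field_simp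
      rw [this, one_div, ← div_eq_inv_mul, div_le_div_iff₀ hR0 (by linarith)]
      nlinarith
    · have e5 : deriv (X (k + 1)) s' - deriv (X (k + 1)) s
          = ((wy a b (k + 1) (ln b t s') - wy a b (k + 1) (ln b t s) : ℝ) : ℂ) := by
        rw [hX, e2, (deriv_xc_real a b t (k + 1) s').2]; push_cast; ring
      rw [← hnorm, ← e5]
      refine (norm_sub_le _ _).trans ?_
      have h1 := (h1' _ hmem).trans hle
      have h2 := (h1' _ hss).trans hle
      have : 1 / B * V0 = V0 / (2 * B) + V0 / (2 * B) := by field_simp; norm_num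
      rw [this]
      exact add_le_add h1 h2

end Pool.Agent.Helper72.EN
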