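import Pool.Agent.Helper72.EN.Prop
import Pool.Agent.Helper72.EN.Long

/-!
# Long times from small components without critical points
-/

set_option autoImplicit false

open Set Metric Topology Filter Real

namespace Pool.Agent.Helper72.EN

open Pool.Agent.Helper18.UC Pool.Agent.Helper18.UY

/-- **The long criterion at small scale.** `r` is the small radius, `B` the size of the long
times. If `X (l + 1)` has no critical point in its component of radius `r` around `s` and the
products `|vv| |vv|` along the next two steps are at least `C |a|` then `l + 2` or `l + 3` is a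
long time. -/
theorem long3 {a b B r C t s : ℝ} {l : ℕ} (hb : 0 ≤ b) (hb1 : b ≤ 1) (hB : 1 ≤ B)
    (h4 : 4 < r * |a|) (hC1 : 2000 * (r * |a|) ≤ C) (hC2 : 2000 * (200000 * B ^ 2) ≤ C)
    (ha : 10000 * C ≤ |a|)
    (h1 : C * |a| ≤ |vv a ((F a)^[l] (ln b t s)).1| * |vv a ((F a)^[l + 1] (ln b t s)).1|)
    (h2 : C * |a| ≤ |vv a ((F a)^[l + 1] (ln b t s)).1| * |vv a ((F a)^[l + 2] (ln b t s)).1|)
    (hd : ∀ z ∈ cp (xc a b t) r (l + 1) s, deriv (xc a b t (l + 1)) z ≠ 0) :
    Long a b B (l + 2) t s ∨ Long a b B (l + 3) t s := by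
  set R0 := 200000 * B ^ 2 with hR0
  set X := xc a b t with hX
  have hO : Orb a X := orb_xc hb hb1
  have hB2 : 1 ≤ B ^ 2 := one_le_pow₀ hB
  have hR01 : 200000 ≤ R0 := by rw [hR0]; nlinarith
  have hC0 : 400000000 ≤ C := by linarith
  have ha1 : 10000 ≤ |a| := by linarith
  have ha0 : 0 < |a| := by linarith
  set u1 := |vv a ((F a)^[l] (ln b t s)).1| with hu1
  set u2 := |vv a ((F a)^[l + 1] (ln b t s)).1| with hu2
  set u3 := |vv a ((F a)^[l + 2] (ln b t s)).1| with hu3
  have hx1 : X (l + 1) s = ((((F a)^[l] (ln b t s)).1 : ℝ) : ℂ) := (xc_real a b t l s).1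
  have hx2 : X (l + 2) s = ((((F a)^[l + 1] (ln b t s)).1 : ℝ) : ℂ) := (xc_real a b t (l + 1) s).1
  have hx3 : X (l + 3) s = ((((F a)^[l + 2] (ln b t s)).1 : ℝ) : ℂ) := (xc_real a b t (l + 2) s).1
  have hle : ∀ y, |vv a y| ≤ 7 * |a| := by
    intro y
    refine (vv_abs a y).trans ?_
    have := pi_lt_d2
    nlinarith
  have hu1le : u1 ≤ 7 * |a| := hle _
  have hu2le : u2 ≤ 7 * |a| := hle _
  have hu3le : u3 ≤ 7 * |a| := hle _
  have hu10 : 0 ≤ u1 := abs_nonneg _
  have hu20 : 0 ≤ u2 := abs_nonneg _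
  have hu30 : 0 ≤ u3 := abs_nonneg _
  have low : ∀ p q : ℝ, 0 ≤ p → q ≤ 7 * |a| → C * |a| ≤ p * q → C / 7 ≤ p := by
    intro p q hp hq hpq
    by_contra hcon
    push Not at hcon
    have : p * q ≤ p * (7 * |a|) := mul_le_mul_of_nonneg_left hq hp
    nlinarith
  have hu1C : C / 7 ≤ u1 := low u1 u2 hu10 hu2le h1
  have hu2C : C / 7 ≤ u2 := low u2 u3 hu20 hu3le h2
  have hu3C : C / 7 ≤ u3 := low u3 u2 hu30 hu2le (by rw [mul_comm u3]; exact h2)
  have hr0 : 0 < r := by
    by_contra hcon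
    push Not at hcon
    nlinarith
  set c0 := r * |a| with hc0
  -- first step
  set ρ1 := c0 * u1 / (8 * |a|) with hρ1
  have hρ1e : ρ1 * |a| = c0 * u1 / 8 := by rw [hρ1]; field_simp
  have hu1p : 0 < u1 := by linarith
  have hc0p : 0 < c0 := by linarith
  have hρ1pos : 0 < ρ1 := div_pos (mul_pos hc0p hu1p) (by positivity)
  have hd1 : ∀ z ∈ cp X ρ1 (l + 2) s, deriv (X (l + 2)) z ≠ 0 := by
    refine prop_step hO h4 ?_ ha1 s l hx1 (rfl : |vv a _| = _) (by linarith) hd hρ1pos ?_ ?_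
    · nlinarith
    · show ρ1 ≤ u1 * r / 8
      refine le_of_eq ?_
      rw [hρ1, hc0]; field_simp
    · rw [hρ1, div_le_div_iff₀ (by positivity) (by positivity)]
      have : 2000 * c0 ≤ 8 * u1 := by linarith
      have h5 : 0 ≤ u1 * |a| := by positivity
      nlinarith
  have hρ1a : 4 < ρ1 * |a| := by rw [hρ1e]; nlinarith
  have hρ1b : 10000 * ρ1 ≤ |a| := by
    have h5 : ρ1 ≤ c0 := by
      rw [hρ1, div_le_iff₀ (by positivity)]
      nlinarith
    linarith
  by_cases hA : 2000 * R0 * |a| ≤ u2 ^ 2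
  · left
    have hd2 : ∀ z ∈ cp X R0 (l + 1 + 2) s, deriv (X (l + 1 + 2)) z ≠ 0 := by
      refine prop_step hO hρ1a hρ1b ha1 s (l + 1) hx2 (rfl : |vv a _| = _) (by linarith) hd1
        (by linarith) ?_ ?_
      · rw [hρ1, le_div_iff₀ (by norm_num), mul_div_assoc', le_div_iff₀ (by positivity)]
        have h5 : C * |a| * c0 ≤ u1 * u2 * c0 := mul_le_mul_of_nonneg_right h1 (by positivity)
        have h6 : 2000 * R0 * |a| * 4 ≤ C * |a| * c0 := by
          apply mul_le_mul _ h4.le (by norm_num) (by positivity)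
          exact mul_le_mul_of_nonneg_right hC2 ha0.le
        have h7 : 0 ≤ R0 * |a| := by positivity
        nlinarith
      · rw [le_div_iff₀ (by positivity)]
        linarith
    exact long_of_noncrit hb hb1 hB le_rfl (by linarith) (by omega) hd2
  · right
    push Not at hA
    set ρ2 := u2 ^ 2 / (2000 * |a|) with hρ2
    have hu2p : 0 < u2 := by linarith
    have hρ2e : ρ2 * |a| = u2 ^ 2 / 2000 := by rw [hρ2]; field_simp
    have hρ2pos : 0 < ρ2 := by positivity
    have hd2 : ∀ z ∈ cp X ρ2 (l + 1 + 2) s, deriv (X (l + 1 + 2)) z ≠ 0 := by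
      refine prop_step hO hρ1a hρ1b ha1 s (l + 1) hx2 (rfl : |vv a _| = _) (by linarith) hd1
        hρ2pos ?_ le_rfl
      rw [hρ2, hρ1, div_le_div_iff₀ (by positivity) (by norm_num), mul_div_assoc', div_mul_eq_mul_div,
        le_div_iff₀ (by positivity)]
      -- u2 ^ 2 * 8 * (8 |a|) ≤ u2 c0 u1 (2000 |a|)
      have h5 : u2 ≤ 20 * u1 := by
        -- C |a| ≤ u1 u2, u2 ^ 2 < 2000 R0 |a| ≤ C |a|
        have h6 : 2000 * R0 * |a| ≤ C * |a| := mul_le_mul_of_nonneg_right hC2 ha0.le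
        by_contra hcon
        push Not at hcon
        nlinarith
      have h6 : u2 * 64 ≤ c0 * u1 * 2000 := by
        have : u1 ≤ c0 * u1 := by nlinarith
        linarith
      have h7 : u2 * |a| * (u2 * 64) ≤ u2 * |a| * (c0 * u1 * 2000) :=
        mul_le_mul_of_nonneg_left h6 (by positivity)
      linarith
    have hρ2a : 4 < ρ2 * |a| := by rw [hρ2e]; nlinarith
    have hρ2b : 10000 * ρ2 ≤ |a| := by
      have h5 : ρ2 ≤ R0 := by
        rw [hρ2, div_le_iff₀ (by positivity)]; linarith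
      linarith
    have hd3 : ∀ z ∈ cp X R0 (l + 2 + 2) s, deriv (X (l + 2 + 2)) z ≠ 0 := by
      refine prop_step hO hρ2a hρ2b ha1 s (l + 2) hx3 (rfl : |vv a _| = _) (by linarith) hd2
        (by linarith) ?_ ?_
      · -- R0 ≤ u3 ρ2 / 8
        rw [hρ2, le_div_iff₀ (by norm_num), mul_div_assoc', le_div_iff₀ (by positivity)]
        have h5 : C * |a| * u2 ≤ u2 * u3 * u2 := mul_le_mul_of_nonneg_right h2 hu20
        have h6 : C * |a| * (C / 7) ≤ C * |a| * u2 := mul_le_mul_of_nonneg_left hu2C (by positivity)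
        have h7 : R0 * 8 * 2000 ≤ C * (C / 7) := by nlinarith
        have h8 := mul_le_mul_of_nonneg_right h7 ha0.le
        linarith
      · -- R0 ≤ u3 ^ 2 / (2000 |a|)
        rw [le_div_iff₀ (by positivity)]
        have h5 : (C * |a|) ^ 2 ≤ (u2 * u3) ^ 2 := pow_le_pow_left₀ (by positivity) h2 2
        have h6 : (u2 * u3) ^ 2 ≤ 2000 * R0 * |a| * u3 ^ 2 := by
          rw [mul_pow]; exact mul_le_mul_of_nonneg_right hA.le (by positivity)
        by_contra hcon
        push Not at hcon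
        have h7 : 2000 * R0 * |a| * u3 ^ 2 < 2000 * R0 * |a| * (R0 * (2000 * |a|)) :=
          mul_lt_mul_of_pos_left hcon (by positivity)
        have h8 : (2000 * R0 * |a|) ^ 2 ≤ (C * |a|) ^ 2 :=
          pow_le_pow_left₀ (by positivity) (mul_le_mul_of_nonneg_right hC2 ha0.le) 2
        nlinarith
    exact long_of_noncrit hb hb1 hB le_rfl (by linarith) (by omega) hd3

end Pool.Agent.Helper72.EN
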