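import Mathlib

/-!
# A circle around every real point on which `G(z) = 2 z + a sin 2 π z` moves by at least `2 R`
-/

set_option autoImplicit false

open Real

namespace Pool.Agent.Helper72.EN

lemma sin_cos_bound {x : ℝ} {w : ℂ} (hw : ‖w‖ ≤ 1) :
    ‖Complex.sin (x + w) - Complex.sin x - Complex.cos x * w + Complex.sin x * w ^ 2 / 2‖
      ≤ 28 / 100 * ‖w‖ ^ 3 := by
  have h1 := Complex.cos_bound hw
  have h2 : ‖Complex.sin w - (w - w ^ 3 / 6)‖ ≤ ‖w‖ ^ 4 * (5 / 96) := by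
    refine (Complex.sin_bound hw).trans ?_
    have : ‖w‖ ^ 5 ≤ ‖w‖ ^ 4 := pow_le_pow_of_le_one (norm_nonneg _) hw (by norm_num)
    nlinarith [pow_nonneg (norm_nonneg w) 4]
  have hs : ‖Complex.sin (x : ℂ)‖ ≤ 1 := by
    rw [← Complex.ofReal_sin, Complex.norm_real]; exact abs_sin_le_one x
  have hc : ‖Complex.cos (x : ℂ)‖ ≤ 1 := by
    rw [← Complex.ofReal_cos, Complex.norm_real]; exact abs_cos_le_one x
  have e : Complex.sin (x + w) - Complex.sin x - Complex.cos x * w + Complex.sin x * w ^ 2 / 2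
      = Complex.sin x * (Complex.cos w - (1 - w ^ 2 / 2))
        + Complex.cos x * (Complex.sin w - (w - w ^ 3 / 6)) - Complex.cos x * (w ^ 3 / 6) := by
    rw [Complex.sin_add]; ring
  rw [e]
  have h3 : ‖w‖ ^ 4 ≤ ‖w‖ ^ 3 := pow_le_pow_of_le_one (norm_nonneg _) hw (by norm_num)
  have n1 : ‖Complex.sin x * (Complex.cos w - (1 - w ^ 2 / 2))‖ ≤ ‖w‖ ^ 4 * (5 / 96) := by
    rw [norm_mul]
    calc _ ≤ 1 * (‖w‖ ^ 4 * (5 / 96)) := mul_le_mul hs h1 (norm_nonneg _) zero_le_one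
      _ = _ := one_mul _
  have n2 : ‖Complex.cos x * (Complex.sin w - (w - w ^ 3 / 6))‖ ≤ ‖w‖ ^ 4 * (5 / 96) := by
    rw [norm_mul]
    calc _ ≤ 1 * (‖w‖ ^ 4 * (5 / 96)) := mul_le_mul hc h2 (norm_nonneg _) zero_le_one
      _ = _ := one_mul _
  have n3 : ‖Complex.cos x * (w ^ 3 / 6)‖ ≤ ‖w‖ ^ 3 / 6 := by
    rw [norm_mul, norm_div, norm_pow]
    have : ‖(6 : ℂ)‖ = 6 := by simp
    rw [this]
    calc _ ≤ 1 * (‖w‖ ^ 3 / 6) := mul_le_mul_of_nonneg_right hc (by positivity)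
      _ = _ := one_mul _
  calc _ ≤ ‖Complex.sin x * (Complex.cos w - (1 - w ^ 2 / 2))
        + Complex.cos x * (Complex.sin w - (w - w ^ 3 / 6))‖ + ‖Complex.cos x * (w ^ 3 / 6)‖ :=
        norm_sub_le _ _
    _ ≤ (‖Complex.sin x * (Complex.cos w - (1 - w ^ 2 / 2))‖
        + ‖Complex.cos x * (Complex.sin w - (w - w ^ 3 / 6))‖) + ‖w‖ ^ 3 / 6 :=
        add_le_add (norm_add_le _ _) n3
    _ ≤ _ := by nlinarith [pow_nonneg (norm_nonneg w) 3]

/-- **Circle lemma.** -/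
theorem circG {a R : ℝ} (hR : 0 < R) (ha : 10000 * R ≤ |a|) (ha1 : 10000 ≤ |a|) (u : ℝ) :
    ∃ t : ℝ, 0 < t ∧ t ≤ √(R / |a|) ∧ ∀ h : ℂ, ‖h‖ = t →
      2 * R ≤ ‖(2 * ((u : ℂ) + h) + a * Complex.sin (2 * π * ((u : ℂ) + h)))
        - (2 * (u : ℂ) + a * Complex.sin (2 * π * (u : ℂ)))‖ := by
  have ha0 : 0 < |a| := by linarith
  set σ := √(R / |a|) with hσ
  have hσ2 : |a| * σ ^ 2 = R := by
    rw [hσ, Real.sq_sqrt (by positivity)]; field_simp
  have hσ0 : 0 < σ := Real.sqrt_pos.2 (by positivity)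
  have hσ1 : σ ≤ 1 / 100 := by
    rw [hσ]
    calc √(R / |a|) ≤ √((1 / 100) ^ 2) := by
          apply Real.sqrt_le_sqrt
          rw [div_le_iff₀ ha0]; linarith
      _ = 1 / 100 := Real.sqrt_sq (by norm_num)
  have hπ : 0 < π := pi_pos
  have hπ3 : 3 < π := pi_gt_three
  set C := Real.cos (2 * π * u) with hC
  set S := Real.sin (2 * π * u) with hS
  have hSC : S ^ 2 + C ^ 2 = 1 := Real.sin_sq_add_cos_sq _
  have hS1 : |S| ≤ 1 := abs_sin_le_one _
  set v := 1 / π + a * C with hv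
  -- the key lower bound
  have key : ∀ τ : ℝ, 0 < τ → τ ≤ 1 → ∀ h : ℂ, ‖h‖ = τ / (2 * π) →
      τ * |(|v| - |a| * |S| * τ / 2)| - 28 / 100 * |a| * τ ^ 3
        ≤ ‖(2 * ((u : ℂ) + h) + a * Complex.sin (2 * π * ((u : ℂ) + h)))
        - (2 * (u : ℂ) + a * Complex.sin (2 * π * (u : ℂ)))‖ := by
    intro τ hτ hτ1 h hh
    set w : ℂ := 2 * π * h with hw
    have hwn : ‖w‖ = τ := by
      rw [hw, norm_mul, norm_mul, hh, Complex.norm_real, Real.norm_of_nonneg hπ.le]
      have : ‖(2 : ℂ)‖ = 2 := by simp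
      rw [this]; field_simp
    have hE := sin_cos_bound (x := 2 * π * u) (w := w) (by rw [hwn]; exact hτ1)
    set E := Complex.sin (((2 * π * u : ℝ) : ℂ) + w) - Complex.sin ((2 * π * u : ℝ) : ℂ)
      - Complex.cos ((2 * π * u : ℝ) : ℂ) * w + Complex.sin ((2 * π * u : ℝ) : ℂ) * w ^ 2 / 2
      with hEd
    have e1 : (2 * ((u : ℂ) + h) + a * Complex.sin (2 * π * ((u : ℂ) + h)))
        - (2 * (u : ℂ) + a * Complex.sin (2 * π * (u : ℂ)))
        = w * ((v : ℂ) - (a : ℂ) * (S : ℂ) * w / 2) + a * E := by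
      have h2 : (2 : ℂ) * π * ((u : ℂ) + h) = ((2 * π * u : ℝ) : ℂ) + w := by
        rw [hw]; push_cast; ring
      have h3 : (2 : ℂ) * π * (u : ℂ) = ((2 * π * u : ℝ) : ℂ) := by push_cast; ring
      have h4 : (2 : ℂ) * h = w * (1 / (π : ℂ)) := by
        rw [hw]; field_simp
      rw [h2, h3, hEd, hv, hS, hC]
      push_cast
      linear_combination h4
    rw [e1]
    have n1 : ‖w * ((v : ℂ) - (a : ℂ) * (S : ℂ) * w / 2)‖
        ≥ τ * |(|v| - |a| * |S| * τ / 2)| := by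
      rw [norm_mul, hwn]
      refine mul_le_mul_of_nonneg_left ?_ hτ.le
      have h5 : ‖(v : ℂ)‖ = |v| := Complex.norm_real v
      have h6 : ‖(a : ℂ) * (S : ℂ) * w / 2‖ = |a| * |S| * τ / 2 := by
        rw [norm_div, norm_mul, norm_mul, Complex.norm_real, Complex.norm_real, hwn]
        simp
      rw [← h5, ← h6]
      exact abs_norm_sub_norm_le _ _
    have n2 : ‖(a : ℂ) * E‖ ≤ 28 / 100 * |a| * τ ^ 3 := by
      rw [norm_mul, Complex.norm_real, Real.norm_eq_abs]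
      rw [hwn] at hE
      calc |a| * ‖E‖ ≤ |a| * (28 / 100 * τ ^ 3) := mul_le_mul_of_nonneg_left hE ha0.le
        _ = _ := by ring
    have n3 := norm_sub_norm_le (w * ((v : ℂ) - (a : ℂ) * (S : ℂ) * w / 2)) (-(a * E))
    rw [norm_neg, sub_neg_eq_add] at n3
    linarith
  have hπσ : ∀ τ : ℝ, τ ≤ 6 * σ → τ / (2 * π) ≤ σ := fun τ hτ => by
    rw [div_le_iff₀ (by positivity)]; nlinarith
  by_cases hB : |v| ≤ 24 / 10 * (|a| * σ)
  · -- near a critical point
    refine ⟨6 * σ / (2 * π), by positivity, hπσ _ le_rfl, fun h hh => ?_⟩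
    have hk := key (6 * σ) (by positivity) (by linarith) h hh
    refine le_trans ?_ hk
    have hCa : |a| * |C| ≤ 24 / 10 * (|a| * σ) + 1 := by
      have : a * C = v - 1 / π := by rw [hv]; ring
      rw [← abs_mul, this]
      have h1 : |1 / π| ≤ 1 := by
        rw [abs_of_pos (by positivity), div_le_one hπ]; linarith
      calc |v - 1 / π| ≤ |v| + |1 / π| := abs_sub _ _
        _ ≤ _ := add_le_add hB h1
    have hC1 : |C| ≤ 3 / 100 := by
      by_contra hcon
      push Not at hcon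
      nlinarith
    have hC2 : C ^ 2 ≤ (3 / 100) ^ 2 := by
      rw [← sq_abs]; exact pow_le_pow_left₀ (abs_nonneg _) hC1 2
    have hS2 : 99 / 100 ≤ |S| := by
      by_contra hcon
      push Not at hcon
      have : |S| ^ 2 < (99 / 100) ^ 2 := pow_lt_pow_left₀ hcon (abs_nonneg _) (by norm_num)
      rw [sq_abs] at this
      nlinarith
    have hlow : 57 / 100 * (|a| * σ) ≤ |(|v| - |a| * |S| * (6 * σ) / 2)| := by
      rw [abs_sub_comm]
      refine le_trans ?_ (le_abs_self _)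
      have : 99 / 100 * (|a| * σ) ≤ |S| * (|a| * σ) :=
        mul_le_mul_of_nonneg_right hS2 (by positivity)
      nlinarith
    calc 2 * R ≤ 6 * σ * (57 / 100 * (|a| * σ)) - 28 / 100 * |a| * (6 * σ) ^ 3 := by
          have h1 : 6 * σ * (57 / 100 * (|a| * σ)) = 342 / 100 * R := by rw [← hσ2]; ring
          have h2 : 28 / 100 * |a| * (6 * σ) ^ 3 = 28 / 100 * 216 * R * σ := by rw [← hσ2]; ring
          rw [h1, h2]
          nlinarith
      _ ≤ _ := by
          have := mul_le_mul_of_nonneg_left hlow (by positivity : 0 ≤ 6 * σ)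
          linarith
  · push Not at hB
    have hv0 : 0 < |v| := lt_trans (by positivity) hB
    by_cases hc : 6 * σ ≤ |v| / |a|
    · refine ⟨6 * σ / (2 * π), by positivity, hπσ _ le_rfl, fun h hh => ?_⟩
      have hk := key (6 * σ) (by positivity) (by linarith) h hh
      refine le_trans ?_ hk
      have h1 : |a| * (6 * σ) ≤ |v| := by rwa [le_div_iff₀ ha0, mul_comm] at hc
      have hlow : |v| / 2 ≤ |(|v| - |a| * |S| * (6 * σ) / 2)| := by
        refine le_trans ?_ (le_abs_self _)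
        have : |a| * |S| * (6 * σ) ≤ |a| * (6 * σ) := by
          have := mul_le_mul_of_nonneg_right hS1 (by positivity : 0 ≤ |a| * (6 * σ))
          linarith
        linarith
      have h3 := mul_le_mul_of_nonneg_left hlow (by positivity : 0 ≤ 6 * σ)
      have h4 : 28 / 100 * |a| * (6 * σ) ^ 3 = 28 / 100 * 216 * R * σ := by rw [← hσ2]; ring
      have h5 : 72 / 10 * R ≤ 6 * σ * (|v| / 2) := by
        have := mul_le_mul_of_nonneg_left hB.le (by positivity : 0 ≤ 3 * σ)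
        have e : 3 * σ * (24 / 10 * (|a| * σ)) = 72 / 10 * R := by rw [← hσ2]; ring
        rw [e] at this; linarith
      rw [h4]
      nlinarith
    · push Not at hc
      set τ := |v| / |a| with hτ
      have hτ0 : 0 < τ := by positivity
      have hτv : |a| * τ = |v| := by rw [hτ]; field_simp
      refine ⟨τ / (2 * π), by positivity, hπσ _ hc.le, fun h hh => ?_⟩
      have hk := key τ hτ0 (by linarith) h hh
      refine le_trans ?_ hk
      have hlow : |v| / 2 ≤ |(|v| - |a| * |S| * τ / 2)| := by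
        refine le_trans ?_ (le_abs_self _)
        have : |a| * |S| * τ ≤ |v| := by
          rw [← hτv]
          have := mul_le_mul_of_nonneg_right hS1 (by positivity : 0 ≤ |a| * τ)
          linarith
        linarith
      have h3 := mul_le_mul_of_nonneg_left hlow hτ0.le
      -- τ |v| ≥ 5.76 R
      have hτ24 : 24 / 10 * σ ≤ τ := by
        rw [hτ, le_div_iff₀ ha0]; nlinarith
      have h6 : 576 / 100 * R ≤ τ * |v| := by
        rw [← hτv]
        have : (24 / 10 * σ) ^ 2 ≤ τ ^ 2 := pow_le_pow_left₀ (by positivity) hτ24 2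
        have := mul_le_mul_of_nonneg_left this ha0.le
        rw [show |a| * (24 / 10 * σ) ^ 2 = 576 / 100 * (|a| * σ ^ 2) by ring, hσ2] at this
        nlinarith
      have h7 : 28 / 100 * |a| * τ ^ 3 = 28 / 100 * τ * (τ * |v|) := by rw [← hτv]; ring
      rw [h7]
      have h8 : τ ≤ 6 / 100 := by linarith
      nlinarith

theorem circ {a R : ℝ} (hR : 1 ≤ R) (ha : 10000 * R ≤ |a|) (u : ℝ) :
    ∃ t : ℝ, 0 < t ∧ t ≤ √(R / |a|) ∧ ∀ h : ℂ, ‖h‖ = t →
      2 * R ≤ ‖(2 * ((u : ℂ) + h) + a * Complex.sin (2 * π * ((u : ℂ) + h)))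
        - (2 * (u : ℂ) + a * Complex.sin (2 * π * (u : ℂ)))‖ :=
  circG (by linarith) ha (by linarith) u

end Pool.Agent.Helper72.EN
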