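import Pool.Agent.Helper18.UY.Pos
import Pool.Agent.Helper18.UY.BadT
import Pool.Agent.Helper18.UY.DirB
import Pool.Agent.Helper18.UC.Eig
import Pool.Agent.Helper18.UC.Expo

/-!
# The measure of the ergodic component in terms of the entropy
-/

set_option autoImplicit false
open MeasureTheory Real Set Filter Topology

namespace Pool.Agent.Helper72.EN

open Pool.Agent.Helper18.UC Pool.Agent.Helper18.UY

private lemma LL_le {a : ℝ} (ha : 1000 ≤ |a|) : LL a ≤ 7 * |a| := by
  unfold LL
  have := Real.pi_lt_d4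
  nlinarith

private lemma le_LL {a : ℝ} : |a| ≤ LL a := by
  unfold LL
  have := Real.pi_gt_three
  nlinarith [abs_nonneg a]

private lemma prob_T2 : IsProbabilityMeasure (volume : Measure T2) := by
  have h1 : IsProbabilityMeasure (volume : Measure UnitAddCircle) := by
    constructor
    rw [UnitAddCircle.measure_univ]
  show IsProbabilityMeasure ((volume : Measure UnitAddCircle).prod volume)
  infer_instance

private lemma logs {a l : ℝ} (hl : l = Real.log |a|) (ha : 1000 ≤ |a|) (hl3 : 10 ≤ l) :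
    l ≤ Real.log (LL a) ∧ Real.log (LL a) ≤ l + 2 ∧ 1 ≤ Real.log (LL a) ∧
      5 * Real.log (1 + Real.log (LL a)) ≤ 5 + 5 * Real.log l := by
  have ha0 : 0 < |a| := by linarith
  have h1 : l ≤ Real.log (LL a) := by
    rw [hl]; exact Real.log_le_log ha0 le_LL
  have h2 : Real.log (LL a) ≤ l + 2 := by
    have h3 : Real.log (LL a) ≤ Real.log (7 * |a|) := Real.log_le_log (LL_pos a) (LL_le ha)
    rw [Real.log_mul (by norm_num) ha0.ne'] at h3
    have h4 : Real.log 7 ≤ 2 := by
      rw [Real.log_le_iff_le_exp (by norm_num)]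
      have h := Real.exp_one_gt_d9
      have h5 : Real.exp 2 = Real.exp 1 ^ 2 := by rw [← Real.exp_nat_mul]; norm_num
      rw [h5]; nlinarith
    rw [hl]; linarith
  refine ⟨h1, h2, by linarith, ?_⟩
  have h3 : Real.log (1 + Real.log (LL a)) ≤ Real.log (Real.exp 1 * l) := by
    apply Real.log_le_log (by linarith)
    have h := Real.exp_one_gt_d9
    nlinarith
  rw [Real.log_mul (Real.exp_pos _).ne' (by linarith), Real.log_exp] at h3
  linarith

/-- the numbers -/
private lemma num {θ e B μ δ η y : ℝ} (hθ0 : 0 ≤ θ) (hθ1 : θ ≤ 1) (hy : y = θ * μ)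
    (hη : η ≤ y + 4 * e) (he : 16 * e ≤ δ) (he0 : 0 ≤ e) (hB : 0 < B) (hBδ : 100 / B ≤ δ / 2)
    (hμ0 : 0 ≤ μ) (hμ1 : μ ≤ 1) (h : 2 * θ - 1 ≤ (1 + 100 / B) * θ ^ 2 * μ) :
    1 - (1 - η) ^ 2 - δ ≤ μ := by
  have hb0 : 0 ≤ 100 / B := by positivity
  have hy0 : 0 ≤ y := by rw [hy]; positivity
  have hy1 : y ≤ 1 := by rw [hy]; nlinarith
  have h1 : 2 * y - μ ≤ (1 + 100 / B) * y ^ 2 := by
    have := mul_le_mul_of_nonneg_right h hμ0
    rw [hy]; nlinarith
  have h2 : (1 + 100 / B) * y ^ 2 ≤ y ^ 2 + δ / 2 := by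
    have : y ^ 2 ≤ 1 := by nlinarith
    nlinarith
  have h3 : 1 - (1 - η) ^ 2 ≤ 1 - (1 - y) ^ 2 + 8 * e := by
    rcases le_total η y with h4 | h4
    · nlinarith
    · nlinarith
  nlinarith

/-- **Entropy and measure of the component.** -/
theorem ent_lam : ∀ δ : ℝ, 0 < δ → ∃ A : ℝ, ∀ a : ℝ, A ≤ |a| → ∀ S : T2 → T2, IsS a S →
    ∀ lam : T2 → ℝ, Measurable lam → (∀ z, |lam z| ≤ Real.log (LL a)) →
    (∀ᵐ z, lam (S z) = lam z) → (∀ c : ℝ, ∀ᵐ z, z ∈ om a c ↔ c < lam z) →
    1 - (1 - (∫ z, lam z) / Real.log |a|) ^ 2 - δ ≤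
      volume.real {z | 6 * Real.log (Real.log |a|) < lam z} := by
  intro δ hδ
  obtain ⟨B, hB, hBδ⟩ : ∃ B : ℝ, 100 ≤ B ∧ 100 / B ≤ δ / 2 := by
    refine ⟨max 100 (200 / δ), le_max_left _ _, ?_⟩
    have h100 : (0:ℝ) < max 100 (200 / δ) := lt_of_lt_of_le (by norm_num) (le_max_left _ _)
    rw [div_le_div_iff₀ h100 (by norm_num)]
    have : 200 / δ ≤ max 100 (200 / δ) := le_max_right _ _
    rw [div_le_iff₀ hδ] at this
    linarith
  have hB0 : 0 < B := by linarith
  obtain ⟨C, hC0, hC⟩ := badT hB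
  set e : ℝ := min (1 / 8) (δ / 32) with he
  have he0 : 0 < e := lt_min (by norm_num) (by linarith)
  have he1 : e ≤ 1 / 8 := min_le_left _ _
  have he2 : 16 * e ≤ δ / 2 := by have := min_le_right (1 / 8) (δ / 32); linarith
  obtain ⟨l0, hl0⟩ : ∃ l0 : ℝ, ∀ l ≥ l0, 6 * Real.log l + C + 20 ≤ e * l ∧
      C + 20 ≤ Real.log l := by
    have h1 := Real.isLittleO_log_id_atTop.bound (show 0 < e / 20 by linarith)
    have h3 : ∀ᶠ l : ℝ in atTop, (C + 20) * 20 / e ≤ l := eventually_ge_atTop _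
    have h4 : ∀ᶠ l : ℝ in atTop, C + 20 ≤ Real.log l :=
      Real.tendsto_log_atTop.eventually_ge_atTop _
    have h5 : ∀ᶠ l : ℝ in atTop, 6 * Real.log l + C + 20 ≤ e * l ∧
      C + 20 ≤ Real.log l := by
      filter_upwards [h1, h3, h4, eventually_ge_atTop 100] with l h1 h3 h4 h5
      rw [Real.norm_eq_abs, Real.norm_eq_abs, id, abs_of_nonneg (by linarith : 0 ≤ Real.log l),
        abs_of_nonneg (by linarith : 0 ≤ l)] at h1
      rw [div_le_iff₀ he0] at h3
      exact ⟨by nlinarith, h4⟩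
    exact eventually_atTop.1 h5
  refine ⟨max 1000 (Real.exp (max 10 l0)), ?_⟩
  intro a ha S hS' lam hlm hlbd hlinv hom
  have ha1 : 1000 ≤ |a| := (le_max_left _ _).trans ha
  have ha0 : 0 < |a| := by linarith
  obtain ⟨l, hl⟩ : ∃ l, l = Real.log |a| := ⟨_, rfl⟩
  have hlm' : max 10 l0 ≤ l := by
    rw [hl, Real.le_log_iff_exp_le ha0]; exact (le_max_right _ _).trans ha
  have hl10 : 10 ≤ l := (le_max_left _ _).trans hlm'
  obtain ⟨k1, k3⟩ := hl0 l ((le_max_right _ _).trans hlm')
  obtain ⟨g1, g2, g3, g4⟩ := logs hl ha1 hl10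
  obtain ⟨b, hb0, hb1, hdir⟩ := exists_dir a
  have ha10 : 10 ≤ |a| := by linarith
  have hlogl : 0 ≤ Real.log l := by linarith
  rw [← hl]
  have := prob_T2
  have hint : Integrable lam volume :=
    Integrable.of_bound hlm.aestronglyMeasurable (Real.log (LL a))
      (Eventually.of_forall fun z => by rw [Real.norm_eq_abs]; exact hlbd z)
  set Ω : Set T2 := {z | 6 * Real.log l < lam z} with hΩ
  have hΩm : MeasurableSet Ω := measurableSet_lt measurable_const hlm
  have hμ1 : volume.real Ω ≤ 1 := measureReal_le_one (μ := (volume : Measure T2))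
  have hμ0 : 0 ≤ volume.real Ω := measureReal_nonneg
  -- ergodicity
  have hmix : ∀ (ξ : ℂ) (h : T2 → ℂ), Measurable h →
        (∀ᵐ z, 6 * Real.log l < lam z → h (S z) = ξ * h z) →
        ∃ w : ℂ, ∀ᵐ z, 6 * Real.log l < lam z → h z = w := by
    intro ξ h hh heq
    set c : ℝ := 6 * Real.log l with hc
    set θ : ℝ := 1 / Real.log (LL a) with hθ
    have hθ0 : 0 < θ := by positivity
    have hθ1 : θ ≤ 1 := by rw [hθ, div_le_one (by linarith)]; exact g3
    have hD : Data a b B c (c - 1) θ := by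
      refine ⟨hB, by linarith, by linarith, hθ0.le, hθ1, hdir, ?_⟩
      refine hC a b (c - 1) θ hb0 hb1 hθ0.le ?_
      have : θ * Real.log (LL a) = 1 := by rw [hθ]; field_simp
      rw [this]
      linarith
    have hmeas := measurableSet_om a c
    have hinv := om_inv hS' c
    have hP := om_PN (a := a) c
    have heq' : ∀ᵐ z, z ∈ om a c → h (S z) = ξ * h z := by
      filter_upwards [heq, hom c] with z h1 h2 hz
      exact h1 (h2.1 hz)
    obtain ⟨w, hw⟩ := eig_const (S_mp hS') hmeas hinv (fun E E' hE hE' hEΩ hEΩ' hm hm' =>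
      pos hS' hD hθ0 ha10 hmeas hinv hP hE hEΩ hE' hEΩ' hm hm') hh heq'
    refine ⟨w, ?_⟩
    filter_upwards [hw, hom c] with z h1 h2 hz
    exact h1 (h2.2 hz)
  obtain ⟨L0, hL0⟩ : ∃ L0 : ℝ, ∀ᵐ z, z ∈ Ω → lam z = L0 := by
    obtain ⟨w, hw⟩ := hmix 1 (fun z => (lam z : ℂ)) (Complex.measurable_ofReal.comp hlm) (by
      filter_upwards [hlinv] with z hz _
      rw [hz, one_mul])
    refine ⟨w.re, ?_⟩
    filter_upwards [hw] with z hz h1
    rw [← hz h1, Complex.ofReal_re]
  -- the integral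
  have hsplit : ∫ z, lam z ≤ volume.real Ω * L0 + 6 * Real.log l := by
    rw [← integral_add_compl hΩm hint]
    have h1 : ∫ z in Ω, lam z = volume.real Ω * L0 := by
      rw [setIntegral_congr_ae (g := fun _ => L0) hΩm (by filter_upwards [hL0] with z hz h; exact hz h),
        setIntegral_const, smul_eq_mul]
    have h2 : ∫ z in Ωᶜ, lam z ≤ ∫ _ in Ωᶜ, 6 * Real.log l := by
      refine setIntegral_mono_on hint.integrableOn (integrable_const _).integrableOn hΩm.compl ?_
      intro z hz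
      exact not_lt.1 hz
    have h3 : ∫ _ in Ωᶜ, 6 * Real.log l ∂(volume : Measure T2) ≤ 6 * Real.log l := by
      rw [setIntegral_const, smul_eq_mul]
      have : volume.real Ωᶜ ≤ 1 := measureReal_le_one (μ := (volume : Measure T2))
      have : 0 ≤ volume.real Ωᶜ := measureReal_nonneg
      nlinarith
    rw [h1]
    linarith
  have hel : 6 * Real.log l ≤ e * l := by linarith
  obtain ⟨I, hI⟩ : ∃ I, I = ∫ z, lam z := ⟨_, rfl⟩
  rw [← hI] at hsplit ⊢
  have hl0' : 0 < l := by linarith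
  have trivial_case : I ≤ 4 * (e * l) → 1 - (1 - I / l) ^ 2 - δ ≤ volume.real Ω := by
    intro h
    have h1 : I / l ≤ 4 * e := by rw [div_le_iff₀ hl0']; linarith
    nlinarith [sq_nonneg (I / l)]
  by_cases hne : volume Ω = 0
  · apply trivial_case
    have h0 : volume.real Ω = 0 := by rw [measureReal_def, hne]; rfl
    rw [h0, zero_mul, zero_add] at hsplit
    have : 0 ≤ e * l := by positivity
    linarith
  -- a point with the exponent L0
  have hLb : L0 ≤ Real.log (LL a) := by
    by_contra hcon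
    push Not at hcon
    apply hne
    have h1 : ∀ᵐ z, z ∉ Ω := by
      filter_upwards [hL0] with z hz h
      have h2 := hz h
      have h3 := (le_abs_self _).trans (hlbd z)
      linarith
    rw [ae_iff] at h1
    simpa using h1
  set t : ℝ := min 1 (L0 / l) with ht
  have ht1 : t ≤ 1 := min_le_left _ _
  have htL : t * l ≤ L0 := by
    have := min_le_right 1 (L0 / l)
    rw [← ht, le_div_iff₀ hl0'] at this
    exact this
  have hLt : L0 ≤ t * l + 2 := by
    rcases min_choice 1 (L0 / l) with h | h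
    · rw [ht, h]; linarith
    · rw [ht, h, div_mul_cancel₀ _ hl0'.ne']; linarith
  by_cases hte : t ≤ e
  · apply trivial_case
    have h1 : volume.real Ω * L0 ≤ e * l + 2 := by
      have h2 : t * l ≤ e * l := mul_le_mul_of_nonneg_right hte hl0'.le
      rcases le_total 0 L0 with h | h
      · nlinarith
      · have : volume.real Ω * L0 ≤ 0 := mul_nonpos_of_nonneg_of_nonpos hμ0 h
        have : 0 ≤ e * l := by positivity
        linarith
    linarith
  push Not at hte
  set θ : ℝ := t - e with hθ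
  have hθ0 : 0 < θ := by rw [hθ]; linarith
  have hθ1 : θ ≤ 1 := by rw [hθ]; linarith
  obtain ⟨c, hc⟩ : ∃ c : ℝ, c = t * l - 1 := ⟨_, rfl⟩
  have htl : e * l ≤ t * l := mul_le_mul_of_nonneg_right hte.le hl0'.le
  have hD : Data a b B c (c - 1) θ := by
    refine ⟨hB, by linarith, by linarith, hθ0.le, hθ1, hdir, ?_⟩
    refine hC a b (c - 1) θ hb0 hb1 hθ0.le ?_
    have h1 : θ * Real.log (LL a) ≤ θ * (l + 2) := mul_le_mul_of_nonneg_left g2 hθ0.le
    have h2 : θ * (l + 2) ≤ t * l - e * l + 2 := by rw [hθ]; nlinarith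
    linarith
  have hmeas := measurableSet_om a c
  have hinv := om_inv hS' c
  have hP := om_PN (a := a) c
  have hne' : volume (om a c) ≠ 0 := by
    intro h0
    apply hne
    have h1 : ∀ᵐ z, z ∉ om a c := by
      rw [ae_iff]; simpa using h0
    have h2 : ∀ᵐ z, z ∉ Ω := by
      filter_upwards [h1, hom c, hL0] with z h3 h4 h6 h5
      exact h3 (h4.2 (by rw [h6 h5, hc]; linarith))
    rw [ae_iff] at h2
    simpa using h2
  have hbig := big hS' hD hθ0 hmeas hinv hP hne'
  have hsub : volume.real (om a c) ≤ volume.real Ω := by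
    apply ENNReal.toReal_mono (measure_ne_top _ _)
    apply measure_mono_ae
    filter_upwards [hom c] with z h1 h2
    have h3 := h1.1 h2
    show 6 * Real.log l < lam z
    linarith
  have hbig' : 2 * θ - 1 ≤ (1 + 100 / B) * θ ^ 2 * volume.real Ω := by
    refine hbig.trans (mul_le_mul_of_nonneg_left hsub ?_)
    have : 0 ≤ 100 / B := by positivity
    positivity
  refine num (θ := θ) (e := e) (B := B) (y := θ * volume.real Ω) hθ0.le hθ1 rfl ?_ (by linarith)
    he0.le hB0 hBδ hμ0 hμ1 hbig'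
  rw [div_le_iff₀ hl0']
  have h1 : volume.real Ω * L0 ≤ volume.real Ω * (t * l + 2) := mul_le_mul_of_nonneg_left hLt hμ0
  have h2 : volume.real Ω * (t * l + 2) ≤ θ * volume.real Ω * l + e * l + 2 := by
    have e1 : volume.real Ω * (t * l + 2)
        = θ * volume.real Ω * l + volume.real Ω * (e * l) + volume.real Ω * 2 := by rw [hθ]; ring
    rw [e1]
    have : 0 ≤ e * l := by positivity
    nlinarith
  have h3 : (θ * volume.real Ω + 4 * e) * l = θ * volume.real Ω * l + 4 * (e * l) := by ring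
  rw [h3]
  linarith

end Pool.Agent.Helper72.EN
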