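import Mathlib

/-!
# Inverse branches of entire functions on components of preimages of discs
-/

set_option autoImplicit false

open Set Metric Topology Filter

namespace Pool.Agent.Helper72.EN

variable {f : ℂ → ℂ}

/-- The component of the preimage of the disc `ball w R` which contains `s`. -/
def comp (f : ℂ → ℂ) (w : ℂ) (R : ℝ) (s : ℂ) : Set ℂ :=
  connectedComponentIn {z | ‖f z - w‖ < R} s

lemma isOpen_pre (hf : Continuous f) (w : ℂ) (R : ℝ) : IsOpen {z | ‖f z - w‖ < R} :=
  isOpen_lt (by fun_prop) continuous_const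

lemma comp_isOpen (hf : Continuous f) (w : ℂ) (R : ℝ) (s : ℂ) : IsOpen (comp f w R s) :=
  (isOpen_pre hf w R).connectedComponentIn

lemma comp_sub (w : ℂ) (R : ℝ) (s : ℂ) : comp f w R s ⊆ {z | ‖f z - w‖ < R} :=
  connectedComponentIn_subset _ _

lemma comp_preconn (w : ℂ) (R : ℝ) (s : ℂ) : IsPreconnected (comp f w R s) :=
  isPreconnected_connectedComponentIn

lemma mem_comp {w : ℂ} {R : ℝ} {s : ℂ} (h : ‖f s - w‖ < R) : s ∈ comp f w R s :=
  mem_connectedComponentIn h

/-- A limit point of the component with value in the open disc is in the component. -/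
lemma mem_of_closure (hf : Continuous f) {w : ℂ} {R : ℝ} {s z : ℂ}
    (hz : z ∈ closure (comp f w R s)) (h : ‖f z - w‖ < R) : z ∈ comp f w R s := by
  obtain ⟨r, hr, hrs⟩ := Metric.isOpen_iff.1 (isOpen_pre hf w R) z h
  obtain ⟨y, hy, hyz⟩ := Metric.mem_closure_iff.1 hz r hr
  have h1 : ball z r ⊆ connectedComponentIn {z | ‖f z - w‖ < R} y :=
    ((convex_ball z r).isPreconnected).subset_connectedComponentIn
      (by rwa [mem_ball, dist_comm]) hrs
  have h2 : connectedComponentIn {z | ‖f z - w‖ < R} y = comp f w R s :=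
    (connectedComponentIn_eq hy).symm
  rw [← h2]; exact h1 (mem_ball_self hr)

/-- **Inverse branch.** If the component `U` of `{|f - w| < R}` at `s` is bounded and contains no
critical point of `f`, then `f : U → ball w R` is bijective with holomorphic inverse. -/
theorem exists_inv (hf : Differentiable ℂ f) {w : ℂ} {R : ℝ} {s : ℂ} (hs : ‖f s - w‖ < R)
    (hb : Bornology.IsBounded (comp f w R s)) (hd : ∀ z ∈ comp f w R s, deriv f z ≠ 0) :
    ∃ g : ℂ → ℂ, DifferentiableOn ℂ g (ball w R) ∧
      (∀ v ∈ ball w R, g v ∈ comp f w R s ∧ f (g v) = v) ∧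
      ∀ z ∈ comp f w R s, g (f z) = z := by
  classical
  set U := comp f w R s with hU
  have hUo : IsOpen U := comp_isOpen hf.continuous w R s
  have hfb : ∀ z : U, f z ∈ ball w R := fun z => by
    rw [mem_ball, dist_eq_norm]; exact comp_sub w R s z.2
  let p : U → ball w R := fun z => ⟨f z, hfb z⟩
  have hpc : Continuous p := by
    refine Continuous.subtype_mk ?_ _
    exact hf.continuous.comp continuous_subtype_val
  have hlo : IsLocalHomeomorphOn f U := by
    intro z hz
    have hst : HasStrictDerivAt f (deriv f z) z := (hf.analyticAt z).hasStrictDerivAt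
    have h := hst.hasStrictFDerivAt_equiv (hd z hz)
    exact ⟨h.toOpenPartialHomeomorph f, h.mem_toOpenPartialHomeomorph_source,
      h.toOpenPartialHomeomorph_coe.symm⟩
  have hsc : IsLocalHomeomorph (Subtype.val ∘ p) := by
    have h1 : (Subtype.val ∘ p : U → ℂ) = f ∘ Subtype.val := rfl
    rw [h1, isLocalHomeomorph_iff_isLocalHomeomorphOn_univ]
    exact hlo.comp hUo.isOpenEmbedding_subtypeVal.isLocalHomeomorph.isLocalHomeomorphOn
      fun z _ => z.2
  have hloc : IsLocalHomeomorph p :=
    hsc.of_comp (isOpen_ball.isOpenEmbedding_subtypeVal.isLocalHomeomorph) hpc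
  -- properness
  have hprop : IsProperMap p := by
    rw [isProperMap_iff_isCompact_preimage]
    refine ⟨hpc, fun K hK => ?_⟩
    have hK' : IsCompact (Subtype.val '' K : Set ℂ) := hK.image continuous_subtype_val
    have hKb : Subtype.val '' K ⊆ ball w R := by rintro _ ⟨x, -, rfl⟩; exact x.2
    rw [Subtype.isCompact_iff]
    have hc : IsCompact (closure U) := hb.isCompact_closure
    have heq : (Subtype.val '' (p ⁻¹' K) : Set ℂ) = closure U ∩ f ⁻¹' (Subtype.val '' K) := by
      ext z
      constructor
      · rintro ⟨x, hx, rfl⟩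
        exact ⟨subset_closure x.2, ⟨p x, hx, rfl⟩⟩
      · rintro ⟨hz1, x, hx, hxz⟩
        have hzU : z ∈ U := by
          refine mem_of_closure hf.continuous hz1 ?_
          rw [← hxz]; have := x.2; rwa [mem_ball, dist_eq_norm] at this
        refine ⟨⟨z, hzU⟩, ?_, rfl⟩
        have : p ⟨z, hzU⟩ = x := Subtype.ext hxz.symm
        rw [mem_preimage, this]; exact hx
    rw [heq]
    exact hc.inter_right (hK'.isClosed.preimage hf.continuous)
  have hcov : IsCoveringMap p := by
    rw [isCoveringMap_iff_isCoveringMapOn_univ]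
    refine hprop.isClosedMap.isCoveringMapOn_of_isLocalHomeomorphOn (fun x _ => ?_)
      (by simpa using hloc.isLocalHomeomorphOn)
    exact (hprop.isCompact_preimage isCompact_singleton).finite
      (.of_openPartialHomeomorph p subset_rfl fun e _ => by
        obtain ⟨φ, h1, h2⟩ := hloc e; exact ⟨φ, h1, h2.symm⟩)
  have hR : 0 < R := (norm_nonneg _).trans_lt hs
  have : ContractibleSpace (ball w R) := (convex_ball w R).contractibleSpace ⟨w, mem_ball_self hR⟩
  have : LocallyPathConnectedSpace (ball w R) := isOpen_ball.locallyPathConnectedSpace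
  have hsU : s ∈ U := mem_comp hs
  obtain ⟨F, ⟨hF0, hF⟩, -⟩ := hcov.existsUnique_continuousMap_lifts (ContinuousMap.id _)
    (p ⟨s, hsU⟩) ⟨s, hsU⟩ rfl
  have : PreconnectedSpace U := isPreconnected_iff_preconnectedSpace.1 (comp_preconn w R s)
  have hFp : (F : ball w R → U) ∘ p = id := by
    refine hcov.eq_of_comp_eq (F.continuous.comp hpc) continuous_id ?_ ⟨s, hsU⟩ (by simpa using hF0)
    ext z
    have := congrFun hF (p z)
    simpa using congrArg Subtype.val this
  refine ⟨fun v => if h : v ∈ ball w R then (F ⟨v, h⟩ : ℂ) else 0, ?_, ?_, ?_⟩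
  · intro v hv
    refine DifferentiableAt.differentiableWithinAt ?_
    have hev : ∀ᶠ v' in 𝓝 v, v' ∈ ball w R := isOpen_ball.mem_nhds hv
    have hval : ∀ v' (h : v' ∈ ball w R), f (F ⟨v', h⟩) = v' := fun v' h => by
      have := congrFun hF ⟨v', h⟩
      exact congrArg Subtype.val this
    have hcont : ContinuousAt (fun v => if h : v ∈ ball w R then (F ⟨v, h⟩ : ℂ) else 0) v := by
      rw [← continuousWithinAt_iff_continuousAt (isOpen_ball.mem_nhds hv)]
      have : ContinuousOn (fun v => if h : v ∈ ball w R then (F ⟨v, h⟩ : ℂ) else 0)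
          (ball w R) := by
        rw [continuousOn_iff_continuous_domRestrict]
        refine (continuous_subtype_val.comp F.continuous).congr fun x => ?_
        simp only [Function.comp_apply, Set.domRestrict_apply]
        rw [dif_pos x.2]
      exact this v hv
    have hder : HasDerivAt f (deriv f (F ⟨v, hv⟩)) (F ⟨v, hv⟩) :=
      (hf _).hasDerivAt
    have := HasDerivAt.of_local_left_inverse (f := f)
      (g := fun v => if h : v ∈ ball w R then (F ⟨v, h⟩ : ℂ) else 0) (a := v)
      (f' := deriv f (F ⟨v, hv⟩)) hcont (by rw [dif_pos hv]; exact hder)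
      (hd _ (F ⟨v, hv⟩).2) (by
        filter_upwards [hev] with v' hv'
        rw [dif_pos hv']; exact hval v' hv')
    exact this.differentiableAt
  · intro v hv
    simp only [dif_pos hv]
    exact ⟨(F ⟨v, hv⟩).2, congrArg Subtype.val (congrFun hF ⟨v, hv⟩)⟩
  · intro z hz
    have h1 : f z ∈ ball w R := hfb ⟨z, hz⟩
    simp only [dif_pos h1]
    exact congrArg Subtype.val (congrFun hFp ⟨z, hz⟩)

end Pool.Agent.Helper72.EN
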