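import Pool.Agent.Helper72.EN.Inv
import Pool.Agent.Helper72.EN.Circ

/-!
# Nesting of the components of the preimages of discs along a complexified orbit
-/

set_option autoImplicit false

open Set Metric Topology Filter Real

namespace Pool.Agent.Helper72.EN

/-- The complexified orbit of a line of slope `b ∈ [0, 1]`. -/
structure Orb (a : ℝ) (X : ℕ → ℂ → ℂ) : Prop where
  zero : ∃ b t : ℝ, 0 ≤ b ∧ b ≤ 1 ∧ ∀ z, X 0 z = t + b * z
  one : ∀ z, X 1 z = z
  succ : ∀ k z, X (k + 2) z = 2 * X (k + 1) z + a * Complex.sin (2 * π * X (k + 1) z) - X k z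

variable {a : ℝ} {X : ℕ → ℂ → ℂ}

lemma Orb.diff (h : Orb a X) : ∀ k, Differentiable ℂ (X k) := by
  have h0 : Differentiable ℂ (X 0) := by
    obtain ⟨b, t, -, -, h0⟩ := h.zero
    rw [show X 0 = fun z => (t : ℂ) + b * z from funext h0]; fun_prop
  have h1 : Differentiable ℂ (X 1) := by
    rw [show X 1 = fun z => z from funext h.one]; fun_prop
  have key : ∀ k, Differentiable ℂ (X k) ∧ Differentiable ℂ (X (k + 1)) := by
    intro k
    induction k with
    | zero => exact ⟨h0, h1⟩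
    | succ k ih =>
      refine ⟨ih.2, ?_⟩
      obtain ⟨ih1, ih2⟩ := ih
      rw [show X (k + 1 + 1) = fun z => 2 * X (k + 1) z + a * Complex.sin (2 * π * X (k + 1) z)
        - X k z from funext (h.succ k)]
      fun_prop
  exact fun k => (key k).1

lemma Orb.real (h : Orb a X) (s : ℝ) : ∀ k, ∃ r : ℝ, X k s = r := by
  have key : ∀ k, (∃ r : ℝ, X k s = r) ∧ ∃ r : ℝ, X (k + 1) s = r := by
    intro k
    induction k with
    | zero =>
      obtain ⟨b, t, -, -, h0⟩ := h.zero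
      exact ⟨⟨t + b * s, by rw [h0]; push_cast; ring⟩, ⟨s, h.one _⟩⟩
    | succ k ih =>
      refine ⟨ih.2, ?_⟩
      obtain ⟨⟨r, hr⟩, r', hr'⟩ := ih
      refine ⟨2 * r' + a * Real.sin (2 * π * r') - r, ?_⟩
      rw [h.succ, hr, hr']; push_cast; ring
  exact fun k => (key k).1

lemma comp_mono {f : ℂ → ℂ} {w : ℂ} {r R : ℝ} {s : ℂ} (hrR : r ≤ R) :
    comp f w r s ⊆ comp f w R s :=
  connectedComponentIn_mono s fun _ hz => lt_of_lt_of_le hz hrR

lemma norm_le_of_closure {f : ℂ → ℂ} (hf : Continuous f) {w : ℂ} {r : ℝ} {s z : ℂ}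
    (hz : z ∈ closure (comp f w r s)) : ‖f z - w‖ ≤ r := by
  have hc : IsClosed {z | ‖f z - w‖ ≤ r} := isClosed_le (by fun_prop) continuous_const
  have h1 : comp f w r s ⊆ {z | ‖f z - w‖ ≤ r} := fun y hy => by
    have : ‖f y - w‖ < r := comp_sub w r s hy
    exact this.le
  exact closure_minimal h1 hc hz

/-- The closure of a component for a smaller radius. -/
lemma closure_comp_sub {f : ℂ → ℂ} (hf : Continuous f) {w : ℂ} {r R : ℝ} {s : ℂ} (hrR : r < R) :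
    closure (comp f w r s) ⊆ comp f w R s := fun z hz =>
  mem_of_closure hf (closure_mono (comp_mono hrR.le) hz)
    ((norm_le_of_closure hf hz).trans_lt hrR)

lemma frontier_comp {f : ℂ → ℂ} (hf : Continuous f) {w : ℂ} {r : ℝ} {s z : ℂ}
    (hz : z ∈ frontier (comp f w r s)) : ‖f z - w‖ = r := by
  have hcl : z ∈ closure (comp f w r s) := frontier_subset_closure hz
  refine le_antisymm (norm_le_of_closure hf hcl) ?_
  by_contra hcon
  push Not at hcon
  have := mem_of_closure hf hcl hcon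
  have ho := (comp_isOpen (f := f) hf w r s).inter_frontier_eq
  exact Set.notMem_empty z (ho ▸ ⟨this, hz⟩)

/-- Boundary criterion. -/
lemma comp_sub_of_frontier {f : ℂ → ℂ} {w : ℂ} {R : ℝ} {s : ℂ} {W : Set ℂ} (hW : IsOpen W)
    (hs : s ∈ W) (hsR : ‖f s - w‖ < R) (h : ∀ z ∈ frontier W, R ≤ ‖f z - w‖) :
    comp f w R s ⊆ W := by
  intro z hz
  by_contra hcon
  have hcov : comp f w R s ⊆ W ∪ (closure W)ᶜ := by
    intro y hy
    by_cases h1 : y ∈ W
    · exact Or.inl h1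
    · refine Or.inr fun h2 => ?_
      have : y ∈ frontier W := by
        rw [hW.frontier_eq]; exact ⟨h2, h1⟩
      exact absurd (comp_sub w R s hy) (not_lt.2 (h y this))
  have hz2 : z ∈ (closure W)ᶜ := (hcov hz).resolve_left hcon
  obtain ⟨y, -, hy1, hy2⟩ := comp_preconn (f := f) w R s W (closure W)ᶜ hW
    isClosed_closure.isOpen_compl hcov ⟨s, mem_comp hsR, hs⟩ ⟨z, hz, hz2⟩
  exact hy2 (subset_closure hy1)

/-- The component of the preimage under `X k` of the disc of radius `R` around `X k s`. -/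
def cp (X : ℕ → ℂ → ℂ) (R : ℝ) (k : ℕ) (s : ℝ) : Set ℂ := comp (X k) (X k s) R s

/-- Admissible radii. -/
structure Rad (a R : ℝ) : Prop where
  big : 1 < R * |a|
  le : 10000 * R ≤ |a|
  a1 : 10000 ≤ |a|

lemma Rad.pos {R : ℝ} (hR : Rad a R) : 0 < R := by
  have h1 := hR.big
  have h2 := hR.a1
  by_contra hcon
  push Not at hcon
  nlinarith

lemma Rad.of_one_le {R : ℝ} (hR : 1 ≤ R) (ha : 10000 * R ≤ |a|) : Rad a R where
  big := by nlinarith
  le := ha
  a1 := by linarith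

lemma Rad.sm {R : ℝ} (hR : Rad a R) : √(R / |a|) ≤ 1 / 100 := by
  have ha0 : 0 < |a| := by linarith [hR.a1]
  calc √(R / |a|) ≤ √((1 / 100) ^ 2) := by
        apply Real.sqrt_le_sqrt
        rw [div_le_iff₀ ha0]; linarith [hR.le]
    _ = 1 / 100 := Real.sqrt_sq (by norm_num)

lemma Rad.sq {R : ℝ} (hR : Rad a R) : √(R / |a|) < R := by
  have ha0 : 0 < |a| := by linarith [hR.a1]
  rw [Real.sqrt_lt' hR.pos, div_lt_iff₀ ha0]
  have h1 := hR.big
  have h2 := hR.pos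
  nlinarith

lemma nest_step (h : Orb a X) {R : ℝ} (hR : Rad a R) (s : ℝ) (k : ℕ)
    (hsm : ∀ t : ℝ, t ≤ √(R / |a|) → ∀ z ∈ closure (cp X t (k + 1) s), ‖X k z - X k s‖ ≤ R) :
    ∃ t : ℝ, 0 < t ∧ t ≤ √(R / |a|) ∧ cp X R (k + 2) s ⊆ cp X t (k + 1) s := by
  obtain ⟨u, hu⟩ := h.real s (k + 1)
  obtain ⟨t, ht0, ht, hc⟩ := circG hR.pos hR.le hR.a1 u
  refine ⟨t, ht0, ht, ?_⟩
  refine comp_sub_of_frontier (comp_isOpen (h.diff _).continuous _ _ _)
    (mem_comp (by simpa using ht0)) (by simpa using hR.pos) ?_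
  intro z hz
  have hfr : ‖X (k + 1) z - X (k + 1) s‖ = t := frontier_comp (h.diff _).continuous hz
  have h1 := hsm t ht z (frontier_subset_closure hz)
  have h2 := hc (X (k + 1) z - X (k + 1) s) hfr
  rw [hu] at h2
  rw [h.succ, h.succ, hu]
  have e : (2 * ((u : ℂ) + (X (k + 1) z - (u : ℂ)))
      + a * Complex.sin (2 * π * ((u : ℂ) + (X (k + 1) z - (u : ℂ)))))
      - (2 * (u : ℂ) + a * Complex.sin (2 * π * (u : ℂ)))
      = (2 * X (k + 1) z + a * Complex.sin (2 * π * X (k + 1) z) - X k z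
        - (2 * (u : ℂ) + a * Complex.sin (2 * π * (u : ℂ)) - X k s)) + (X k z - X k s) := by
    rw [show (u : ℂ) + (X (k + 1) z - (u : ℂ)) = X (k + 1) z by ring]; ring
  rw [e] at h2
  have h3 := norm_add_le (2 * X (k + 1) z + a * Complex.sin (2 * π * X (k + 1) z) - X k z
        - (2 * (u : ℂ) + a * Complex.sin (2 * π * (u : ℂ)) - X k s)) (X k z - X k s)
  linarith

/-- **Nesting.** -/
theorem nestG (h : Orb a X) {R : ℝ} (hR : Rad a R) (s : ℝ) (k : ℕ) :
    ∃ t : ℝ, 0 < t ∧ t ≤ √(R / |a|) ∧ cp X R (k + 2) s ⊆ cp X t (k + 1) s := by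
  have hsm := hR.sq
  induction k with
  | zero =>
    refine nest_step h hR s 0 fun t ht z hz => ?_
    obtain ⟨b, c, hb0, hb1, h0⟩ := h.zero
    have h1 : ‖X 1 z - X 1 s‖ ≤ t := norm_le_of_closure (h.diff 1).continuous hz
    rw [h.one, h.one] at h1
    rw [h0, h0]
    have : (c : ℂ) + b * z - (c + b * s) = b * (z - s) := by ring
    rw [this, norm_mul, Complex.norm_real, Real.norm_of_nonneg hb0]
    have h2 := mul_le_mul hb1 h1 (norm_nonneg _) zero_le_one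
    linarith
  | succ k ih =>
    obtain ⟨t', ht'0, ht', hsub⟩ := ih
    refine nest_step h hR s (k + 1) fun t ht z hz => ?_
    have hz1 : z ∈ cp X R (k + 2) s :=
      closure_comp_sub (h.diff _).continuous (by linarith) hz
    have := comp_sub _ _ _ (hsub hz1)
    have h3 : ‖X (k + 1) z - X (k + 1) s‖ < t' := this
    linarith

/-- On `cp X R (k + 2) s` the function `X (k + 1)` is constant up to `√(R / |a|)`. -/
lemma smallG (h : Orb a X) {R : ℝ} (hR : Rad a R) (s : ℝ) (k : ℕ) {z : ℂ}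
    (hz : z ∈ cp X R (k + 2) s) : ‖X (k + 1) z - X (k + 1) s‖ < √(R / |a|) := by
  obtain ⟨t, -, ht, hsub⟩ := nestG h hR s k
  exact (comp_sub _ _ _ (hsub hz)).trans_le ht

lemma cp_antiG (h : Orb a X) {R : ℝ} (hR : Rad a R) (s : ℝ) (k : ℕ) :
    cp X R (k + 2) s ⊆ cp X R (k + 1) s := by
  obtain ⟨t, -, ht, hsub⟩ := nestG h hR s k
  have := hR.sq
  exact hsub.trans (comp_mono (by linarith))

lemma closure_cp_subG (h : Orb a X) {R : ℝ} (hR : Rad a R) (s : ℝ) (k : ℕ) :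
    closure (cp X R (k + 2) s) ⊆ cp X R (k + 1) s := by
  obtain ⟨t, -, ht, hsub⟩ := nestG h hR s k
  have := hR.sq
  exact (closure_mono hsub).trans (closure_comp_sub (h.diff _).continuous (by linarith))

lemma cp_sub_ballG (h : Orb a X) {R : ℝ} (hR : Rad a R) (s : ℝ) (k : ℕ) :
    cp X R (k + 1) s ⊆ ball (s : ℂ) R := by
  induction k with
  | zero =>
    intro z hz
    have := comp_sub _ _ _ hz
    have h3 : ‖X 1 z - X 1 s‖ < R := this
    rw [h.one, h.one] at h3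
    rwa [mem_ball, dist_eq_norm]
  | succ k ih => exact (cp_antiG h hR s k).trans ih

/-- On `cp X R (k + 1) s` the function `X k` is constant up to `R`. -/
lemma cp_boundedG (h : Orb a X) {R : ℝ} (hR : Rad a R) (s : ℝ) (k : ℕ) :
    Bornology.IsBounded (cp X R (k + 1) s) :=
  isBounded_ball.subset (cp_sub_ballG h hR s k)

/-- Inverse branch on a component without critical points. -/
theorem cp_invG (h : Orb a X) {R : ℝ} (hR : Rad a R) (s : ℝ) (k : ℕ)
    (hd : ∀ z ∈ cp X R (k + 1) s, deriv (X (k + 1)) z ≠ 0) :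
    ∃ g : ℂ → ℂ, DifferentiableOn ℂ g (ball (X (k + 1) s) R) ∧
      (∀ v ∈ ball (X (k + 1) s) R, g v ∈ cp X R (k + 1) s ∧ X (k + 1) (g v) = v) ∧
      ∀ z ∈ cp X R (k + 1) s, g (X (k + 1) z) = z :=
  exists_inv (h.diff _) (by simpa using hR.pos) (cp_boundedG h hR s k) hd

/-! ### Radii at least one -/

lemma sqrt_small {R : ℝ} (hR : 1 ≤ R) (ha : 10000 * R ≤ |a|) : √(R / |a|) ≤ 1 / 100 :=
  (Rad.of_one_le hR ha).sm

theorem nest (h : Orb a X) {R : ℝ} (hR : 1 ≤ R) (ha : 10000 * R ≤ |a|) (s : ℝ) (k : ℕ) :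
    ∃ t : ℝ, 0 < t ∧ t ≤ √(R / |a|) ∧ cp X R (k + 2) s ⊆ cp X t (k + 1) s :=
  nestG h (Rad.of_one_le hR ha) s k

lemma small (h : Orb a X) {R : ℝ} (hR : 1 ≤ R) (ha : 10000 * R ≤ |a|) (s : ℝ) (k : ℕ) {z : ℂ}
    (hz : z ∈ cp X R (k + 2) s) : ‖X (k + 1) z - X (k + 1) s‖ < √(R / |a|) :=
  smallG h (Rad.of_one_le hR ha) s k hz

lemma cp_anti (h : Orb a X) {R : ℝ} (hR : 1 ≤ R) (ha : 10000 * R ≤ |a|) (s : ℝ) (k : ℕ) :
    cp X R (k + 2) s ⊆ cp X R (k + 1) s :=
  cp_antiG h (Rad.of_one_le hR ha) s k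

lemma closure_cp_sub (h : Orb a X) {R : ℝ} (hR : 1 ≤ R) (ha : 10000 * R ≤ |a|) (s : ℝ) (k : ℕ) :
    closure (cp X R (k + 2) s) ⊆ cp X R (k + 1) s :=
  closure_cp_subG h (Rad.of_one_le hR ha) s k

lemma cp_sub_ball (h : Orb a X) {R : ℝ} (hR : 1 ≤ R) (ha : 10000 * R ≤ |a|) (s : ℝ) (k : ℕ) :
    cp X R (k + 1) s ⊆ ball (s : ℂ) R :=
  cp_sub_ballG h (Rad.of_one_le hR ha) s k

lemma cp_bounded (h : Orb a X) {R : ℝ} (hR : 1 ≤ R) (ha : 10000 * R ≤ |a|) (s : ℝ) (k : ℕ) :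
    Bornology.IsBounded (cp X R (k + 1) s) :=
  cp_boundedG h (Rad.of_one_le hR ha) s k

theorem cp_inv (h : Orb a X) {R : ℝ} (hR : 1 ≤ R) (ha : 10000 * R ≤ |a|) (s : ℝ) (k : ℕ)
    (hd : ∀ z ∈ cp X R (k + 1) s, deriv (X (k + 1)) z ≠ 0) :
    ∃ g : ℂ → ℂ, DifferentiableOn ℂ g (ball (X (k + 1) s) R) ∧
      (∀ v ∈ ball (X (k + 1) s) R, g v ∈ cp X R (k + 1) s ∧ X (k + 1) (g v) = v) ∧
      ∀ z ∈ cp X R (k + 1) s, g (X (k + 1) z) = z :=
  cp_invG h (Rad.of_one_le hR ha) s k hd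

end Pool.Agent.Helper72.EN
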