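import Pool.Agent.Helper72.EN.Nest

/-!
# Propagation of univalent components
-/

set_option autoImplicit false

open Set Metric Topology Filter Real

namespace Pool.Agent.Helper72.EN

variable {a : ℝ} {X : ℕ → ℂ → ℂ}

lemma cos_diff_bound {x : ℝ} {w : ℂ} (hw : ‖w‖ ≤ 1) :
    ‖Complex.cos (x + w) - Complex.cos x‖ ≤ 18 / 10 * ‖w‖ := by
  have h1 := Complex.cos_bound hw
  have h2 := Complex.sin_bound hw
  have hs : ‖Complex.sin (x : ℂ)‖ ≤ 1 := by
    rw [← Complex.ofReal_sin, Complex.norm_real]; exact abs_sin_le_one x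
  have hc : ‖Complex.cos (x : ℂ)‖ ≤ 1 := by
    rw [← Complex.ofReal_cos, Complex.norm_real]; exact abs_cos_le_one x
  have w0 := norm_nonneg w
  have p2 : ‖w‖ ^ 2 ≤ ‖w‖ := by nlinarith
  have p3 : ‖w‖ ^ 3 ≤ ‖w‖ := by
    calc ‖w‖ ^ 3 ≤ ‖w‖ ^ 1 := pow_le_pow_of_le_one w0 hw (by norm_num)
      _ = ‖w‖ := pow_one _
  have p4 : ‖w‖ ^ 4 ≤ ‖w‖ := by
    calc ‖w‖ ^ 4 ≤ ‖w‖ ^ 1 := pow_le_pow_of_le_one w0 hw (by norm_num)
      _ = ‖w‖ := pow_one _
  have p5 : ‖w‖ ^ 5 ≤ ‖w‖ := by
    calc ‖w‖ ^ 5 ≤ ‖w‖ ^ 1 := pow_le_pow_of_le_one w0 hw (by norm_num)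
      _ = ‖w‖ := pow_one _
  have n1 : ‖Complex.cos w - 1‖ ≤ 56 / 100 * ‖w‖ := by
    have e : Complex.cos w - 1 = (Complex.cos w - (1 - w ^ 2 / 2)) - w ^ 2 / 2 := by ring
    rw [e]
    refine (norm_sub_le _ _).trans ?_
    have : ‖w ^ 2 / 2‖ = ‖w‖ ^ 2 / 2 := by rw [norm_div, norm_pow]; simp
    rw [this]; linarith
  have n2 : ‖Complex.sin w‖ ≤ 123 / 100 * ‖w‖ := by
    have e : Complex.sin w = (Complex.sin w - (w - w ^ 3 / 6)) + (w - w ^ 3 / 6) := by ring
    rw [e]
    refine (norm_add_le _ _).trans ?_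
    have h3 := norm_sub_le w (w ^ 3 / 6)
    have : ‖w ^ 3 / 6‖ = ‖w‖ ^ 3 / 6 := by rw [norm_div, norm_pow]; simp
    rw [this] at h3; linarith
  have e : Complex.cos (x + w) - Complex.cos x
      = Complex.cos x * (Complex.cos w - 1) - Complex.sin x * Complex.sin w := by
    rw [Complex.cos_add]; ring
  rw [e]
  refine (norm_sub_le _ _).trans ?_
  rw [norm_mul, norm_mul]
  have m1 := mul_le_mul hc n1 (norm_nonneg _) zero_le_one
  have m2 := mul_le_mul hs n2 (norm_nonneg _) zero_le_one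
  linarith

/-- **Propagation.** -/
theorem prop_step (hO : Orb a X) {ρ : ℝ} (h4 : 4 < ρ * |a|) (hle : 10000 * ρ ≤ |a|)
    (ha1 : 10000 ≤ |a|) (s : ℝ) (k : ℕ) {x u : ℝ} (hx : X (k + 1) s = x)
    (hu : |2 + 2 * π * a * Real.cos (2 * π * x)| = u) (hu1 : 100 ≤ u)
    (hd : ∀ z ∈ cp X ρ (k + 1) s, deriv (X (k + 1)) z ≠ 0) {σ : ℝ} (hσ0 : 0 < σ)
    (hσ : σ ≤ u * ρ / 8) (hσ' : σ ≤ u ^ 2 / (2000 * |a|)) :
    ∀ z ∈ cp X σ (k + 2) s, deriv (X (k + 2)) z ≠ 0 := by
  have ha0 : 0 < |a| := by linarith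
  have hR : Rad a ρ := ⟨by linarith, hle, ha1⟩
  have hρ := hR.pos
  obtain ⟨g, hg, hg1, hg2⟩ := cp_invG hO hR s k hd
  have hπ : 0 < π := pi_pos
  have hπ4 : π < 4 := pi_lt_four
  have hπ3 : π < 3.15 := pi_lt_d2
  set U := cp X ρ (k + 1) s with hU
  have hfd : Differentiable ℂ (X (k + 1)) := hO.diff _
  have hsU : (s : ℂ) ∈ U := mem_comp (by simpa using hρ)
  set v0 : ℂ := X (k + 1) s with hv0
  -- the map φ
  set φ : ℂ → ℂ := fun v => X k (g v) with hφ
  have hφd : DifferentiableOn ℂ φ (ball v0 ρ) := (hO.diff k).comp_differentiableOn hg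
  have hφ' : ∀ v ∈ closedBall v0 (ρ / 4), ‖deriv φ v‖ ≤ 1 := by
    intro v hv
    rw [mem_closedBall, dist_eq_norm] at hv
    rcases k with _ | k
    · obtain ⟨b, c, hb0, hb1, h0⟩ := hO.zero
      have hvb : v ∈ ball v0 ρ := by rw [mem_ball, dist_eq_norm]; linarith
      have e1 : φ =ᶠ[𝓝 v] fun v => (c : ℂ) + b * v := by
        filter_upwards [isOpen_ball.mem_nhds hvb] with y hy
        have h1 := (hg1 y hy).2
        rw [zero_add, hO.one] at h1
        rw [hφ]; simp only
        rw [h0, h1]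
      rw [e1.deriv_eq]
      have h2 : HasDerivAt (fun v : ℂ => (c : ℂ) + b * v) ((b : ℂ) * 1) v :=
        ((hasDerivAt_id v).const_mul (b : ℂ)).const_add (c : ℂ)
      rw [h2.deriv, mul_one, Complex.norm_real, Real.norm_of_nonneg hb0]
      exact hb1
    · have hsub : closedBall v (ρ / 2) ⊆ ball v0 ρ := by
        intro y hy
        rw [mem_closedBall, dist_eq_norm] at hy
        rw [mem_ball, dist_eq_norm]
        have := norm_sub_le_norm_sub_add_norm_sub y v v0
        linarith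
      have hρ2 : 0 < ρ / 2 := by positivity
      have h1 : deriv (fun v => φ v - X (k + 1) s) v = deriv φ v := deriv_sub_const ..
      rw [← h1]
      have h2 : ‖deriv (fun v => φ v - X (k + 1) s) v‖ ≤ √(ρ / |a|) / (ρ / 2) := by
        refine Complex.norm_deriv_le_of_forall_mem_sphere_norm_le hρ2 ?_ ?_
        · refine DifferentiableOn.diffContOnCl ?_
          rw [closure_ball _ hρ2.ne']
          exact (hφd.sub_const _).mono hsub
        · intro y hy
          exact (smallG hO hR s k (hg1 y (hsub (sphere_subset_closedBall hy))).1).le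
      refine h2.trans ?_
      rw [div_le_one hρ2]
      rw [Real.sqrt_le_left hρ2.le, div_le_iff₀ ha0]
      nlinarith
  -- the radius
  set τ := min (ρ / 4) (u / (400 * |a|)) with hτ
  have hτ0 : 0 < τ := lt_min (by positivity) (by positivity)
  have hτ1 : τ ≤ ρ / 4 := min_le_left _ _
  have hτ2 : τ ≤ u / (400 * |a|) := min_le_right _ _
  have hua : u ≤ 8 * |a| := by
    rw [← hu]
    refine (abs_add_le _ _).trans ?_
    rw [abs_mul, abs_mul, abs_mul, abs_of_pos hπ, abs_two]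
    have h1 := abs_cos_le_one (2 * π * x)
    have h2 : 2 * π * |a| * |Real.cos (2 * π * x)| ≤ 2 * π * |a| * 1 :=
      mul_le_mul_of_nonneg_left h1 (by positivity)
    nlinarith
  have hτa : |a| * τ ≤ u / 400 := by
    have := mul_le_mul_of_nonneg_left hτ2 ha0.le
    refine this.trans (le_of_eq ?_)
    field_simp
  have hτ3 : τ ≤ 1 / 50 := by
    by_contra hcon
    push Not at hcon
    nlinarith
  have hστ : σ ≤ 3 / 4 * u * τ := by
    rcases min_choice (ρ / 4) (u / (400 * |a|)) with h | h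
    · rw [hτ, h]
      have : 0 < u * ρ := by positivity
      linarith
    · rw [hτ, h]
      refine hσ'.trans ?_
      have e1 : u ^ 2 / (2000 * |a|) = 1 / 2000 * (u ^ 2 / |a|) := by field_simp
      have e2 : 3 / 4 * u * (u / (400 * |a|)) = 3 / 1600 * (u ^ 2 / |a|) := by
        field_simp; norm_num
      rw [e1, e2]
      have : 0 ≤ u ^ 2 / |a| := by positivity
      linarith
  set c0 : ℂ := ((2 + 2 * π * a * Real.cos (2 * π * x) : ℝ) : ℂ) with hc0
  have hc0n : ‖c0‖ = u := by rw [hc0, Complex.norm_real]; exact hu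
  set H : ℂ → ℂ := fun v => 2 * v + a * Complex.sin (2 * π * v) - φ v with hH
  have hHat : ∀ v ∈ closedBall v0 τ, HasDerivAt H
      (2 + 2 * π * a * Complex.cos (2 * π * v) - deriv φ v) v := by
    intro v hv
    have hvb : v ∈ ball v0 ρ := by
      rw [mem_closedBall] at hv; rw [mem_ball]; linarith
    have h1 : HasDerivAt φ (deriv φ v) v :=
      ((hφd v hvb).differentiableAt (isOpen_ball.mem_nhds hvb)).hasDerivAt
    have h2 : HasDerivAt (fun v : ℂ => 2 * v) ((2 : ℂ) * 1) v := (hasDerivAt_id v).const_mul 2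
    have h3 : HasDerivAt (fun v : ℂ => 2 * π * v) ((2 * π : ℂ) * 1) v :=
      (hasDerivAt_id v).const_mul _
    have h5 : HasDerivAt H ((2 : ℂ) * 1 + a * (Complex.cos (2 * π * v) * (2 * π * 1))
        - deriv φ v) v := (h2.add (h3.csin.const_mul (a : ℂ))).sub h1
    have h6 : (2 : ℂ) * 1 + a * (Complex.cos (2 * π * v) * (2 * π * 1)) - deriv φ v
        = 2 + 2 * π * a * Complex.cos (2 * π * v) - deriv φ v := by ring
    rwa [h6] at h5
  have hH' : ∀ v ∈ closedBall v0 τ,
      ‖(2 + 2 * π * a * Complex.cos (2 * π * v) - deriv φ v) - c0‖ ≤ u / 4 := by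
    intro v hv
    rw [mem_closedBall, dist_eq_norm] at hv
    have h1 : ‖deriv φ v‖ ≤ 1 := hφ' v (by rw [mem_closedBall, dist_eq_norm]; linarith)
    set w : ℂ := 2 * π * (v - v0) with hw
    have hwn : ‖w‖ = 2 * π * ‖v - v0‖ := by
      rw [hw, norm_mul, norm_mul, Complex.norm_real, Real.norm_of_nonneg hπ.le]; simp
    have hw1 : ‖w‖ ≤ 2 * π * τ := by
      rw [hwn]; exact mul_le_mul_of_nonneg_left hv (by positivity)
    have h2 := cos_diff_bound (x := 2 * π * x) (w := w) (by nlinarith)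
    have e1 : (2 * π * v : ℂ) = ((2 * π * x : ℝ) : ℂ) + w := by
      rw [hw, hx]; push_cast; ring
    have e2 : (2 + 2 * π * a * Complex.cos (2 * π * v) - deriv φ v) - c0
        = 2 * π * a * (Complex.cos (((2 * π * x : ℝ) : ℂ) + w) - Complex.cos ((2 * π * x : ℝ) : ℂ))
          - deriv φ v := by
      rw [e1, hc0]; push_cast; ring
    rw [e2]
    refine (norm_sub_le _ _).trans ?_
    have h3 : ‖2 * (π : ℂ) * a
        * (Complex.cos (((2 * π * x : ℝ) : ℂ) + w) - Complex.cos ((2 * π * x : ℝ) : ℂ))‖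
        ≤ 2 * π * |a| * (18 / 10 * (2 * π * τ)) := by
      rw [norm_mul]
      have : ‖2 * (π : ℂ) * a‖ = 2 * π * |a| := by
        rw [norm_mul, norm_mul, Complex.norm_real, Complex.norm_real, Real.norm_of_nonneg hπ.le,
          Real.norm_eq_abs]; simp
      rw [this]
      refine mul_le_mul_of_nonneg_left (h2.trans ?_) (by positivity)
      exact mul_le_mul_of_nonneg_left hw1 (by norm_num)
    have h4 : 2 * π * |a| * (18 / 10 * (2 * π * τ)) = 72 / 10 * (π * π) * (|a| * τ) := by ring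
    rw [h4] at h3
    have h5 : π * π ≤ 9.93 := by nlinarith
    have h6 : 72 / 10 * (π * π) * (|a| * τ) ≤ 72 / 10 * 9.93 * (u / 400) :=
      mul_le_mul (mul_le_mul_of_nonneg_left h5 (by norm_num)) hτa (by positivity) (by norm_num)
    linarith
  have hHb : ∀ v ∈ closedBall v0 τ, 3 / 4 * u * ‖v - v0‖ ≤ ‖H v - H v0‖ := by
    intro v hv
    have h1 := Convex.norm_image_sub_le_of_norm_deriv_le (𝕜 := ℂ)
      (f := fun v => H v - c0 * v) (C := u / 4) (s := closedBall v0 τ)
      (fun y hy => ((hHat y hy).sub ((hasDerivAt_id y).const_mul c0)).differentiableAt)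
      (fun y hy => by
        have : HasDerivAt (fun v => H v - c0 * v)
          ((2 + 2 * π * a * Complex.cos (2 * π * y) - deriv φ y) - c0 * 1) y :=
          (hHat y hy).sub ((hasDerivAt_id y).const_mul c0)
        rw [this.deriv, mul_one]; exact hH' y hy) (convex_closedBall _ _)
      (mem_closedBall_self hτ0.le) hv
    have e : c0 * (v - v0) = (H v - H v0) - ((H v - c0 * v) - (H v0 - c0 * v0)) := by ring
    have h2 := norm_sub_le (H v - H v0) ((H v - c0 * v) - (H v0 - c0 * v0))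
    rw [← e, norm_mul, hc0n] at h2
    linarith
  have hXH : ∀ z ∈ U, X (k + 2) z = H (X (k + 1) z) := by
    intro z hz
    rw [hO.succ, hH, hφ]
    simp only
    rw [hg2 z hz]
  have hv0e : H v0 = X (k + 2) s := (hXH _ hsU).symm
  have hUo : IsOpen U := comp_isOpen hfd.continuous _ _ _
  have hclU : closure (cp X τ (k + 1) s) ⊆ U := closure_comp_sub hfd.continuous (by linarith)
  have hsub : cp X σ (k + 2) s ⊆ cp X τ (k + 1) s := by
    refine comp_sub_of_frontier (comp_isOpen hfd.continuous _ _ _)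
      (mem_comp (by simpa using hτ0)) (by simpa using hσ0) ?_
    intro z hz
    have hfr : ‖X (k + 1) z - X (k + 1) s‖ = τ := frontier_comp hfd.continuous hz
    have hzU : z ∈ U := hclU (frontier_subset_closure hz)
    rw [hXH z hzU, ← hv0e]
    refine hστ.trans ?_
    have h1 := hHb (X (k + 1) z) (by rw [mem_closedBall, dist_eq_norm]; exact hfr.le)
    rw [← hv0, ] at hfr
    rw [hfr] at h1
    exact h1
  intro z hz
  have hzτ := hsub hz
  have hzU : z ∈ U := hclU (subset_closure hzτ)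
  have hvb : X (k + 1) z ∈ closedBall v0 τ := by
    have : ‖X (k + 1) z - v0‖ < τ := comp_sub _ _ _ hzτ
    rw [mem_closedBall, dist_eq_norm]; exact this.le
  have h1 : HasDerivAt (fun y => H (X (k + 1) y))
      ((2 + 2 * π * a * Complex.cos (2 * π * X (k + 1) z) - deriv φ (X (k + 1) z))
        * deriv (X (k + 1)) z) z := (hHat _ hvb).comp z (hfd z).hasDerivAt
  have h2 : X (k + 2) =ᶠ[𝓝 z] fun y => H (X (k + 1) y) := by
    filter_upwards [hUo.mem_nhds hzU] with y hy
    exact hXH y hy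
  rw [h2.deriv_eq, h1.deriv]
  refine mul_ne_zero ?_ (hd z hzU)
  intro h0
  have h3 := hH' _ hvb
  rw [h0, zero_sub, norm_neg, hc0n] at h3
  linarith

end Pool.Agent.Helper72.EN
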